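import Pool.Agent.H63.P6.D1

/-!
# D1 for the wedge `k` (MP_591ade_co, p = 6): see `D1.lean`
-/

set_option autoImplicit false

open Set Real

noncomputable section

namespace Pool.Agent.H63.P6

open Pool.Agent.H20.AL Pool.Agent.H16.T3 Pool.Agent.H78.P6 Pool.Agent.H16.AP

variable {V : ℂ → ℝ} {κ el : ℝ} {X : Set ℂ} {k : Fin 3} {a z : ℂ} {M : ℤ}

theorem D1K_of {v : ℂ} (vb : VB V) (h : V v ≤ 1 / 3) : D1K v :=
  ⟨vb.nrm v h, vb.up v h, vb.dn v h, vb.n120 v h, vb.n60 v h⟩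

/-- displacements of the three frames in the frame of the wedge -/
theorem D1_disp (X : Set ℂ) (k : Fin 3) (a : ℂ) :
    disp (lx X k a) (1, 0) = rho k * (g1 X k a - a) - d1 ∧ disp (lx X k a) (1, 1) = rho k * (g2 X k a - a) - d2 ∧
      disp (lx X k a) (0, 1) = rho k * (g3 X k a - a) - d3 := by
  have e1 : ws k (1, 0) = E (kk k) := by
    have := ws_10 k 0; rwa [zero_add, ws_zero, zero_add] at this
  have e2 : ws k (1, 1) = E (kk k + 1) := by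
    have := ws_11 k 0; rwa [zero_add, ws_zero, zero_add] at this
  have e3 : ws k (0, 1) = E (kk k + 2) := by
    have := ws_01 k 0; rwa [zero_add, ws_zero, zero_add] at this
  have t1 : st (1, 0) = d1 := by simp [st]
  have t2 : st (1, 1) = d2 := by
    apply Complex.ext
    · simp [st, d1, d2, d3]
    · simp [st, d1, d2, d3]; norm_num
  have t3 : st (0, 1) = d3 := by simp [st]
  refine ⟨?_, ?_, ?_⟩
  · unfold disp lx g1
    rw [e1, t1]
  · unfold disp lx g2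
    rw [e2, t2]
  · unfold disp lx g3
    rw [e3, t3]

theorem D1_frames (vb : VB V) (h : ApexData V κ el X k a M) :
    D1K (rho k * (g1 X k a - a) - d1) ∧ D1K (rho k * (g2 X k a - a) - d2) ∧ D1K (rho k * (g3 X k a - a) - d3) := by
  obtain ⟨e1, e2, e3⟩ := D1_disp X k a
  have p1 : (0 : ℤ × ℤ) ≤ (1, 0) ∧ ((1, 0) : ℤ × ℤ) ≠ 0 := by decide
  have p2 : (0 : ℤ × ℤ) ≤ (1, 1) ∧ ((1, 1) : ℤ × ℤ) ≠ 0 := by decide
  have p3 : (0 : ℤ × ℤ) ≤ (0, 1) ∧ ((0, 1) : ℤ × ℤ) ≠ 0 := by decide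
  rw [← e1, ← e2, ← e3]
  exact ⟨D1K_of vb ((h.pot _ p1.1 p1.2).trans (h.en _ p1.1 p1.2)), D1K_of vb ((h.pot _ p2.1 p2.2).trans (h.en _ p2.1 p2.2)),
    D1K_of vb ((h.pot _ p3.1 p3.2).trans (h.en _ p3.1 p3.2))⟩

/-- the base edges -/
theorem D1_edges (h : ApexData V κ el X k a M) (hel : el ≤ 147 / 100) :
    ‖g2 X k a - g1 X k a‖ ≤ 147 / 100 ∧ ‖g3 X k a - g2 X k a‖ ≤ 147 / 100 := by
  have h0 : (0 : ℤ × ℤ) ≤ 0 := le_rfl
  have s1 := ps_all h (nz_10 h0).1 (nz_10 h0).2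
  have s3 := ps_all h (nz_01 h0).1 (nz_01 h0).2
  rw [cs_10, cs_zero] at s1
  rw [cs_01, cs_zero] at s3
  have e1 : a + E (kk k) + E (kk k + 2) = a + E (kk k + 1) := by rw [E_two_sub]; ring
  have e3 : a + E (kk k + 2) + E (kk k) = a + E (kk k + 1) := by rw [E_two_sub]; ring
  have b1 := s1.l3
  have b3 := s3.l1
  rw [e1] at b1
  rw [e3] at b3
  refine ⟨(b1.trans_le hel).le, ?_⟩
  rw [norm_sub_rev]
  exact (b3.trans_le hel).le

theorem D1_far (hX : Sep X) (h : ApexData V κ el X k a M) (hz : z ∈ X) (z1 : z ≠ g1 X k a) (z2 : z ≠ g2 X k a)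
    (z3 : z ≠ g3 X k a) : 1 ≤ ‖z - g1 X k a‖ ∧ 1 ≤ ‖z - g2 X k a‖ ∧ 1 ≤ ‖z - g3 X k a‖ := by
  obtain ⟨f1, f2, f3⟩ := frame h
  refine ⟨?_, ?_, ?_⟩
  · have := hX z hz _ f1.1 z1; rwa [dist_eq_norm] at this
  · have := hX z hz _ f2.1 z2; rwa [dist_eq_norm] at this
  · have := hX z hz _ f3.1 z3; rwa [dist_eq_norm] at this

/-- a foreign point within `1/√3` of the quadrilateral `a, g1, g2, g3` is near `a` -/
theorem D1_near (hX : Sep X) (h : ApexData V κ el X k a M) (hel : el ≤ 147 / 100)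
    (hQ : QC a (g1 X k a) (g2 X k a) (g3 X k a)) (n1 : ‖g1 X k a - a‖ ≤ 12207 / 10000)
    (n2 : ‖g2 X k a - a‖ ≤ 12207 / 10000) (n3 : ‖g3 X k a - a‖ ≤ 12207 / 10000) (hz : z ∈ X)
    (z1 : z ≠ g1 X k a) (z2 : z ≠ g2 X k a) (z3 : z ≠ g3 X k a) {q : ℂ}
    (hq : q ∈ Qd a (g1 X k a) (g2 X k a) (g3 X k a)) (hd : dist z q < 1 / √3) : ‖z - a‖ ≤ 705 / 1000 := by
  obtain ⟨u1, u2, u3⟩ := D1_far hX h hz z1 z2 z3
  obtain ⟨l12, l23⟩ := D1_edges h hel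
  set x1 := g1 X k a with hx1
  set x2 := g2 X k a with hx2
  set x3 := g3 X k a with hx3
  have hQ' : QC 0 (x1 - a) (x2 - a) (x3 - a) := by
    refine ⟨?_, ?_, ?_, ?_⟩
    · simpa using hQ.pab
    · have := hQ.abc; simpa using this
    · simpa using hQ.bcp
    · simpa using hQ.cpa
  have hq' : q - a ∈ Qd 0 (x1 - a) (x2 - a) (x3 - a) := by
    obtain ⟨a1, a2, a3, a4⟩ := hq
    refine ⟨by simpa using a1, by simpa using a2, by simpa using a3, ?_⟩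
    have e : cr (0 - (x3 - a)) (q - a - (x3 - a)) = cr (a - x3) (q - x3) := by
      congr 1 <;> ring
    rw [e]; exact a4
  have hd' : ‖z - a - (q - a)‖ < 1 / √3 := by
    rw [sub_sub_sub_cancel_right, ← dist_eq_norm]; exact hd
  exact d1_near hQ' n1 n2 n3 (by rwa [sub_sub_sub_cancel_right]) (by rwa [sub_sub_sub_cancel_right])
    (by rwa [sub_sub_sub_cancel_right]) (by rwa [sub_sub_sub_cancel_right]) (by rwa [sub_sub_sub_cancel_right]) hq' hd'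

/-- a foreign point with `1/2 ≤ |z - a| ≤ .705` is well below the apex -/
theorem D1_axis (hX : Sep X) (vb : VB V) (h : ApexData V κ el X k a M) (n1 : ‖g1 X k a - a‖ ≤ 12207 / 10000)
    (n3 : ‖g3 X k a - a‖ ≤ 12207 / 10000) (hz : z ∈ X) (z1 : z ≠ g1 X k a) (z2 : z ≠ g2 X k a) (z3 : z ≠ g3 X k a)
    (h1 : 1 / 2 ≤ ‖z - a‖) (h2 : ‖z - a‖ ≤ 705 / 1000) : dt (z - a) (E (kk k + 1)) ≤ -(1 / 5) := by
  obtain ⟨u1, u2, u3⟩ := D1_far hX h hz z1 z2 z3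
  obtain ⟨k1, k2, k3⟩ := D1_frames vb h
  have e : dt (z - a) (E (kk k + 1)) = (rho k * (z - a)).im := by
    rw [← dt_rho k, rho_E1]
    simp [dt, d2]
  rw [e]
  have f : ∀ w : ℂ, rho k * (z - a) - rho k * (w - a) = rho k * (z - w) := by intro w; ring
  refine d1_axis k1 k2 k3 ?_ ?_ ?_ ?_ ?_ ?_ ?_
  · rwa [norm_rho_mul]
  · rwa [norm_rho_mul]
  · rw [f, norm_rho_mul]; exact u1
  · rw [f, norm_rho_mul]; exact u2
  · rw [f, norm_rho_mul]; exact u3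
  · rwa [norm_rho_mul]
  · rwa [norm_rho_mul]

end Pool.Agent.H63.P6
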