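import Pool.Agent.H20.AL.NOV
import Pool.Agent.H16.T3.TRN

/-!
# T5 of the three-wedge scheme (MP_591ade_co, p = 6): definitions

Scheme: `/team-store/H78_p6.md`.  Wedge coordinates: a site of the (rotated) lattice is `st p = p.1 * d1 + p.2 * d3`, where
`d1, d2, d3` are the unit vectors at 30, 90, 150 degrees (`d2 = d1 + d3`).  `x : ℤ × ℤ → ℂ` are the real positions of the sites.
The wedge of `p` consists of the cells `q ≥ p` (both coordinates); the cell `q` consists of the two triangles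
`(q, q+(1,0), q+(1,1))` and `(q, q+(1,1), q+(0,1))`.
-/

set_option autoImplicit false

open Pool.Agent.H20.AL Pool.Agent.H16.T3

noncomputable section

namespace Pool.Agent.H63.P6

/-- unit vector at 30 degrees -/
def d1 : ℂ := ⟨√3 / 2, 1 / 2⟩
/-- unit vector at 90 degrees -/
def d2 : ℂ := ⟨0, 1⟩
/-- unit vector at 150 degrees -/
def d3 : ℂ := ⟨-(√3 / 2), 1 / 2⟩

/-- the lattice site with wedge coordinates `p` -/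
def st (p : ℤ × ℤ) : ℂ := (p.1 : ℂ) * d1 + (p.2 : ℂ) * d3

/-- excess of the triangle `a b c` in units of `√3/2` -/
def exc (a b c : ℂ) : ℝ := cr (b - a) (c - a) / √3 - 1 / 2

/-- excess of the cell with the edge vectors `w1, w2, w3` -/
def fanw (w1 w2 w3 : ℂ) : ℝ := (cr w1 w2 + cr w2 w3) / √3 - 1

/-- excess of the cell `p` -/
def fan (x : ℤ × ℤ → ℂ) (p : ℤ × ℤ) : ℝ :=
  exc (x p) (x (p + (1, 0))) (x (p + (1, 1))) + exc (x p) (x (p + (1, 1))) (x (p + (0, 1)))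

/-- energy of the wedge of `p`, cut off at `N` -/
def En (x : ℤ × ℤ → ℂ) (N : ℤ) (p : ℤ × ℤ) : ℝ :=
  ∑ a ∈ Finset.Ico p.1 N, ∑ b ∈ Finset.Ico p.2 N, fan x (a, b)

/-- displacement of the site `p` -/
def disp (x : ℤ × ℤ → ℂ) (p : ℤ × ℤ) : ℂ := x p - st p

/-- lower bound for the energy of the strip starting with the edge from `x1 = d + v` to `x2`, in the direction `d` -/
def sig (κ : ℝ) (d v1 v2 : ℂ) (l : ℝ) : ℝ := κ * (max (-(dt v1 d)) 0 + max (-(dt v2 d)) 0 + (l - 1))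

/-- `Φ` -/
def Phi (V : ℂ → ℝ) (κ : ℝ) (v1 v2 v3 : ℂ) : ℝ :=
  max (V v1 + sig κ d3 v3 v2 ‖(d3 + v3) - (d2 + v2)‖)
    (max (V v3 + sig κ d1 v1 v2 ‖(d2 + v2) - (d1 + v1)‖)
      (V v2 + sig κ d1 v1 v2 ‖(d2 + v2) - (d1 + v1)‖ + sig κ d3 v3 v2 ‖(d3 + v3) - (d2 + v2)‖))

/-- geometric properties of the star (edge vectors `w1, w2, w3` of a site to its neighbours in the directions `d1, d2, d3`):
lengths, every edge turned by less than 30 degrees, both triangles are `Good` -/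
structure Star (el : ℝ) (w1 w2 w3 : ℂ) : Prop where
  l1 : ‖w1‖ < el
  l2 : ‖w2‖ < el
  l3 : ‖w3‖ < el
  t1 : Turn d1 w1
  t2 : Turn d2 w2
  t3 : Turn d3 w3
  c12 : 0 < cr w1 w2
  c23 : 0 < cr w2 w3
  g12 : ‖w1‖ ^ 2 < 2 ∨ ‖w2‖ ^ 2 < 2
  g23 : ‖w2‖ ^ 2 < 2 ∨ ‖w3‖ ^ 2 < 2
  h12 : ‖w1‖ ^ 2 < 2 ∨ ‖w2 - w1‖ ^ 2 < 2
  h21 : ‖w2‖ ^ 2 < 2 ∨ ‖w2 - w1‖ ^ 2 < 2
  h23 : ‖w2‖ ^ 2 < 2 ∨ ‖w3 - w2‖ ^ 2 < 2
  h32 : ‖w3‖ ^ 2 < 2 ∨ ‖w3 - w2‖ ^ 2 < 2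

/-- what the certificate T1 has to prove about the potential `V`, the slope `κ` and the edge bound `el` -/
structure DP (V : ℂ → ℝ) (κ el : ℝ) : Prop where
  zero : V 0 ≤ 0
  nz : ∀ u : ℂ, V u ≤ 0 → u = 0
  kap : 0 < κ
  el1 : 1 < el
  exc : ∀ w1 w2 : ℂ, 1 ≤ ‖w1‖ → 1 ≤ ‖w2‖ → 1 ≤ ‖w2 - w1‖ → ‖w1‖ < el → ‖w2‖ < el → ‖w2 - w1‖ < el → 0 < cr w1 w2 →
    κ * ((‖w1‖ - 1) + (‖w2‖ - 1) + (‖w2 - w1‖ - 1)) ≤ cr w1 w2 / √3 - 1 / 2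
  dp : ∀ (u v1 v2 v3 : ℂ) (E : ℝ), ‖u‖ ≤ 1 / 2 → V v1 ≤ 1 / 3 → V v2 ≤ 1 / 3 → V v3 ≤ 1 / 3 →
    1 ≤ ‖d1 + v1 - u‖ → 1 ≤ ‖d2 + v2 - u‖ → 1 ≤ ‖d3 + v3 - u‖ →
    1 ≤ ‖(d2 + v2) - (d1 + v1)‖ → 1 ≤ ‖(d3 + v3) - (d2 + v2)‖ →
    fanw (d1 + v1 - u) (d2 + v2 - u) (d3 + v3 - u) + Phi V κ v1 v2 v3 ≤ E → E ≤ 1 / 3 →
    V u ≤ E ∧ Star el (d1 + v1 - u) (d2 + v2 - u) (d3 + v3 - u)

/-- the local situation: real positions `x` of the sites of a quadrant without its apex `(0,0)`; the triples `u, v` are in wedge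
coordinates, everything is exact when a coordinate is `≥ N` -/
structure Loc (V : ℂ → ℝ) (κ el : ℝ) (x : ℤ × ℤ → ℂ) (N : ℤ) : Prop where
  dpp : DP V κ el
  far : ∀ p : ℤ × ℤ, 0 ≤ p → (N ≤ p.1 ∨ N ≤ p.2) → x p = st p
  sep : ∀ p q : ℤ × ℤ, 0 ≤ p → 0 ≤ q → p ≠ 0 → q ≠ 0 → p ≠ q → 1 ≤ ‖x p - x q‖
  near : ∀ p : ℤ × ℤ, 0 ≤ p → p ≠ 0 → ‖disp x p‖ ≤ 1 / 2
  en : ∀ p : ℤ × ℤ, 0 ≤ p → p ≠ 0 → En x N p ≤ 1 / 3
  pos : 1 ≤ N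

end Pool.Agent.H63.P6
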