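import Pool.Agent.H63.P6.Wsl

/-!
# T5, part B: the global skeleton

`main6`: the properties `DP` of a potential and the geometric part `T3` imply the first half of the frozen statement.
-/

set_option autoImplicit false

open Pool.Agent.H20.AL Pool.Agent.H16.T3 Finset

noncomputable section

namespace Pool.Agent.H63.P6

/-- rotated positions of all sites -/
def yk (X : Set ℂ) (k : Fin 3) (p : ℤ × ℤ) : ℂ := rho k * pos X (ws k p)

/-- good sites of the wedge type `k` -/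
def Gk (X : Set ℂ) (M : ℤ) (k : Fin 3) : Set (ℤ × ℤ) :=
  {p | ∀ q, p ≤ q → Mat X (ws k q) ∧ En (yk X k) M q ≤ 1 / 3}

theorem Main_count {X : Set ℂ} {S Y : Finset ℂ} (h : Conf X S Y) : ∃ t ∈ Lam, ¬ Mat X t := by
  by_contra hc
  push Not at hc
  have hmaps : ∀ t ∈ S, pos X t ∈ Y := by
    intro t ht
    have htL : t ∈ Lam := h.sub ht
    obtain ⟨h1, h2⟩ := pos_spec (hc t htL)
    have h3 : pos X t ∈ (Lam \ S) ∪ (Y : Set ℂ) := by rw [← h.eq]; exact h1
    rcases h3 with h3 | h3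
    · exfalso
      have hne : pos X t ≠ t := by
        intro he
        rw [he] at h3
        exact h3.2 ht
      have := lam_sep _ h3.1 t htL hne
      linarith
    · exact h3
  have hinj : Set.InjOn (pos X) S := by
    intro t ht t' ht' he
    exact pos_inj (h.sub ht) (h.sub ht') (hc t (h.sub ht)) (hc t' (h.sub ht')) he
  have hcard := Finset.card_le_card_of_injOn (pos X) hmaps hinj
  have := h.card
  omega

theorem Main_far {X : Set ℂ} {S Y : Finset ℂ} (h : Conf X S Y) :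
    ∃ M : ℤ, ∀ (k : Fin 3) (p : ℤ × ℤ), (M ≤ p.1 ∨ M ≤ p.2) → ws k p ∈ X ∧ pos X (ws k p) = ws k p := by
  obtain ⟨R, hR⟩ : ∃ R : ℝ, ∀ t ∈ S, ‖t‖ ≤ R := by
    obtain ⟨R, hR⟩ := S.finite_toSet.isBounded.exists_norm_le
    exact ⟨R, fun t ht => hR t ht⟩
  refine ⟨⌊2 * R⌋ + 1, fun k p hp => ?_⟩
  have hnS : ws k p ∉ S := by
    intro hS
    have h1 := hR _ hS
    have h2 := ws_norm k p
    have h3 : 2 * R < ((⌊2 * R⌋ + 1 : ℤ) : ℝ) := by push_cast; exact Int.lt_floor_add_one _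
    rcases hp with hp | hp
    · have h4 : ((⌊2 * R⌋ + 1 : ℤ) : ℝ) ≤ (p.1 : ℝ) := by exact_mod_cast hp
      have h5 := le_abs_self (p.1 : ℝ)
      linarith [h2.1]
    · have h4 : ((⌊2 * R⌋ + 1 : ℤ) : ℝ) ≤ (p.2 : ℝ) := by exact_mod_cast hp
      have h5 := le_abs_self (p.2 : ℝ)
      linarith [h2.2]
  have hX : ws k p ∈ X := by
    rw [h.eq]
    exact Or.inl ⟨ws_mem k p, hnS⟩
  exact ⟨hX, pos_self h.sep hX⟩

theorem Main_Ico {f : ℤ → ℝ} {M : ℤ} (hf : ∀ c, M ≤ c → f c = 0) {N : ℤ} (h : M ≤ N) (u : ℤ) :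
    ∑ c ∈ Ico u N, f c = ∑ c ∈ Ico u M, f c := by
  symm
  apply sum_subset
  · intro c hc
    rw [mem_Ico] at hc ⊢
    omega
  · intro c _ hc2
    rw [mem_Ico] at hc2
    rcases le_or_gt M c with h1 | h1
    · exact hf c h1
    · rename_i hc1
      rw [mem_Ico] at hc1
      omega

theorem Main_shift (f : ℤ → ℝ) (a u N : ℤ) : ∑ c ∈ Ico u N, f (a + c) = ∑ c ∈ Ico (a + u) (a + N), f c := by
  have : Ico (a + u) (a + N) = (Ico u N).map ⟨fun c => a + c, fun i j h => by simpa using h⟩ := by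
    ext c
    simp only [mem_Ico, mem_map, Function.Embedding.coeFn_mk]
    constructor
    · rintro ⟨h1, h2⟩
      exact ⟨c - a, by omega, by omega⟩
    · rintro ⟨d, hd, rfl⟩
      omega
  rw [this, sum_map]
  rfl

theorem Main_fan {x y : ℤ × ℤ → ℂ} {a : ℤ × ℤ} {c : ℂ} (h : ∀ q, x q = y (a + q) - c) (q : ℤ × ℤ) :
    fan x q = fan y (a + q) := by
  unfold fan exc
  rw [h, h, h, h]
  rw [show a + (q + (1, 0)) = a + q + (1, 0) by rw [add_assoc], show a + (q + (1, 1)) = a + q + (1, 1) by rw [add_assoc],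
    show a + (q + (0, 1)) = a + q + (0, 1) by rw [add_assoc]]
  simp only [sub_sub_sub_cancel_right]

theorem Main_En {x y : ℤ × ℤ → ℂ} {a : ℤ × ℤ} {c : ℂ} (h : ∀ q, x q = y (a + q) - c) {M N : ℤ}
    (hf : ∀ p : ℤ × ℤ, (M ≤ p.1 ∨ M ≤ p.2) → fan y p = 0) (h1 : M ≤ a.1 + N) (h2 : M ≤ a.2 + N) (q : ℤ × ℤ) :
    En x N q = En y M (a + q) := by
  have e1 : En x N q = ∑ b ∈ Ico q.1 N, ∑ c ∈ Ico q.2 N, fan y (a.1 + b, a.2 + c) := by
    unfold En
    refine sum_congr rfl fun b _ => sum_congr rfl fun c _ => ?_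
    rw [Main_fan h]
    rfl
  have e2 : ∀ b, ∑ c ∈ Ico q.2 N, fan y (b, a.2 + c) = ∑ c ∈ Ico (a.2 + q.2) M, fan y (b, c) := by
    intro b
    rw [Main_shift (fun c => fan y (b, c)) a.2 q.2 N]
    exact Main_Ico (fun c hc => hf (b, c) (Or.inr hc)) h2 _
  rw [e1]
  simp only [e2]
  rw [Main_shift (fun b => ∑ c ∈ Ico (a.2 + q.2) M, fan y (b, c)) a.1 q.1 N,
    Main_Ico (fun b hb => sum_eq_zero fun c _ => hf (b, c) (Or.inl hb)) h1]
  rfl

theorem Main_fan_far {X : Set ℂ} {M : ℤ} {k : Fin 3}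
    (hM : ∀ p : ℤ × ℤ, (M ≤ p.1 ∨ M ≤ p.2) → ws k p ∈ X ∧ pos X (ws k p) = ws k p) (p : ℤ × ℤ)
    (hp : M ≤ p.1 ∨ M ≤ p.2) : fan (yk X k) p = 0 := by
  have hy : ∀ q : ℤ × ℤ, (M ≤ q.1 ∨ M ≤ q.2) → yk X k q = st q := by
    intro q hq
    unfold yk
    rw [(hM q hq).2, rho_ws]
  rw [Ind_fan, hy p hp, hy (p + (1, 0)) (by simp only [Prod.fst_add, Prod.snd_add]; omega),
    hy (p + (1, 1)) (by simp only [Prod.fst_add, Prod.snd_add]; omega),
    hy (p + (0, 1)) (by simp only [Prod.fst_add, Prod.snd_add]; omega), Loc_st_add, Loc_st_add, Loc_st_add,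
    Loc_st10, Loc_st01, Loc_st11, add_sub_cancel_left, add_sub_cancel_left, add_sub_cancel_left]
  unfold fanw
  simp only [cr, d1, d2, d3]
  have h3 : (√3 : ℝ) ≠ 0 := by positivity
  field_simp
  ring

theorem Main_far_good {X : Set ℂ} (hX : Sep X) {M : ℤ} {k : Fin 3}
    (hM : ∀ p : ℤ × ℤ, (M ≤ p.1 ∨ M ≤ p.2) → ws k p ∈ X ∧ pos X (ws k p) = ws k p) (p : ℤ × ℤ)
    (hp : M ≤ p.1 ∨ M ≤ p.2) : p ∈ Gk X M k := by
  intro q hq
  have hq' : M ≤ q.1 ∨ M ≤ q.2 := by
    rcases hp with h | h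
    · exact Or.inl (h.trans hq.1)
    · exact Or.inr (h.trans hq.2)
  refine ⟨⟨ws k q, (hM q hq').1, by rw [dist_self]; norm_num⟩, ?_⟩
  have : En (yk X k) M q = 0 := by
    unfold En
    rcases hq' with h | h
    · rw [Ico_eq_empty (by omega), sum_empty]
    · apply sum_eq_zero
      intro b _
      rw [Ico_eq_empty (by omega), sum_empty]
  rw [this]
  norm_num

/-- a maximal bad site above a bad site -/
theorem Main_max {X : Set ℂ} (hX : Sep X) {M : ℤ} {k : Fin 3}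
    (hM : ∀ p : ℤ × ℤ, (M ≤ p.1 ∨ M ≤ p.2) → ws k p ∈ X ∧ pos X (ws k p) = ws k p) {c : ℤ × ℤ} (hc : c ∉ Gk X M k) :
    ∃ a, c ≤ a ∧ a ∉ Gk X M k ∧ ∀ q, a ≤ q → q ≠ a → q ∈ Gk X M k := by
  have hfin : {p : ℤ × ℤ | c ≤ p ∧ p ∉ Gk X M k}.Finite := by
    apply (Set.finite_Icc c (M, M)).subset
    rintro p ⟨h1, h2⟩
    refine ⟨h1, ?_⟩
    by_contra h3
    apply h2
    apply Main_far_good hX hM
    by_contra h4
    push Not at h4
    exact h3 ⟨h4.1.le, h4.2.le⟩
  obtain ⟨a, ha⟩ := hfin.exists_maximal ⟨c, le_rfl, hc⟩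
  refine ⟨a, ha.prop.1, ha.prop.2, fun q hq hne => ?_⟩
  by_contra h
  have h5 := ha.le_of_ge (y := q) ⟨ha.prop.1.trans hq, h⟩ hq
  exact hne (le_antisymm h5 hq)

/-- the data at a maximal bad site -/
theorem Main_apex {V : ℂ → ℝ} {κ el : ℝ} (hD : DP V κ el) {X : Set ℂ} (hX : Sep X) {M : ℤ} {k : Fin 3}
    (hM : ∀ p : ℤ × ℤ, (M ≤ p.1 ∨ M ≤ p.2) → ws k p ∈ X ∧ pos X (ws k p) = ws k p) {a : ℤ × ℤ} (ha : a ∉ Gk X M k)
    (hq : ∀ q, a ≤ q → q ≠ a → q ∈ Gk X M k) : ∃ N, ApexData V κ el X k (ws k a) N := by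
  set N : ℤ := max (max (M - a.1) (M - a.2)) 1 with hN
  have hN1 : M ≤ a.1 + N := by have := le_max_left (max (M - a.1) (M - a.2)) 1; have := le_max_left (M - a.1) (M - a.2); omega
  have hN2 : M ≤ a.2 + N := by have := le_max_left (max (M - a.1) (M - a.2)) 1; have := le_max_right (M - a.1) (M - a.2); omega
  have hN3 : 1 ≤ N := le_max_right _ _
  have hxy : ∀ q, lx X k (ws k a) q = yk X k (a + q) - st a := by
    intro q
    unfold lx yk
    rw [ws_add, mul_sub, rho_ws]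
  have hfan := Main_fan_far hM
  have hEn := Main_En hxy hfan hN1 hN2
  have hG : ∀ p : ℤ × ℤ, 0 ≤ p → p ≠ 0 → Mat X (ws k a + ws k p) ∧ En (lx X k (ws k a)) N p ≤ 1 / 3 := by
    intro p hp h0
    have h1 := hq (a + p) (le_add_of_nonneg_right hp) (by simpa using h0) (a + p) le_rfl
    rw [hEn, ← ws_add]
    exact h1
  have hfar : ∀ p : ℤ × ℤ, 0 ≤ p → (N ≤ p.1 ∨ N ≤ p.2) →
      ws k a + ws k p ∈ X ∧ pos X (ws k a + ws k p) = ws k a + ws k p := by
    intro p _ h
    rw [← ws_add]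
    apply hM
    simp only [Prod.fst_add, Prod.snd_add]
    omega
  have hdisp : ∀ p, disp (lx X k (ws k a)) p = rho k * (pos X (ws k a + ws k p) - (ws k a + ws k p)) := by
    intro p
    unfold disp lx
    rw [← rho_ws k p]
    ring
  have hL : Loc V κ el (lx X k (ws k a)) N := by
    refine ⟨hD, ?_, ?_, ?_, ?_, hN3⟩
    · intro p hp h
      unfold lx
      rw [(hfar p hp h).2, add_sub_cancel_left, rho_ws]
    · intro p q hp hq' hp0 hq0 hpq
      have h1 := (hG p hp hp0).1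
      have h2 := (hG q hq' hq0).1
      have hne : pos X (ws k a + ws k p) ≠ pos X (ws k a + ws k q) := by
        intro he
        have h3 := pos_inj (lam_add (ws_mem k a) (ws_mem k p)) (lam_add (ws_mem k a) (ws_mem k q)) h1 h2 he
        have h4 : ws k p = ws k q := by simpa using h3
        have h5 : st p = st q := by rw [← rho_ws k, ← rho_ws k, h4]
        apply hpq
        have h6 := congrArg Complex.re h5
        have h7 := congrArg Complex.im h5
        simp only [st, d1, d3, Complex.add_re, Complex.add_im, Complex.mul_re, Complex.mul_im, Complex.intCast_re,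
          Complex.intCast_im] at h6 h7
        have h8 : (√3 : ℝ) ≠ 0 := by positivity
        have h9 : ((p.1 : ℝ) - p.2 - (q.1 - q.2)) = 0 := by
          have : √3 * ((p.1 : ℝ) - p.2 - (q.1 - q.2)) = 0 := by linarith
          rcases mul_eq_zero.1 this with h | h
          · exact absurd h h8
          · exact h
        have h10 : (p.1 : ℝ) = q.1 := by linarith
        have h11 : (p.2 : ℝ) = q.2 := by linarith
        exact Prod.ext (by exact_mod_cast h10) (by exact_mod_cast h11)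
      have h12 := hX _ (pos_spec h1).1 _ (pos_spec h2).1 hne
      rw [dist_eq_norm] at h12
      unfold lx
      rw [← mul_sub, norm_rho_mul, sub_sub_sub_cancel_right]
      exact h12
    · intro p hp h0
      rw [hdisp, norm_rho_mul, ← dist_eq_norm]
      exact (pos_spec (hG p hp h0).1).2.le
    · intro p hp h0
      exact (hG p hp h0).2
  refine ⟨N, ws_mem k a, hN3, hfar, fun p hp h0 => pos_spec (hG p hp h0).1, fun p hp h0 => (hG p hp h0).2,
    fun p hp h0 => (good hL p hp h0).1, fun p hp h0 => (good hL p hp h0).2, apex hL, ?_⟩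
  by_cases hmat : Mat X (ws k a)
  · right
    refine ⟨hmat, ?_⟩
    by_contra hle
    apply ha
    intro q haq
    by_cases hqa : q = a
    · subst hqa
      refine ⟨hmat, ?_⟩
      have e0 := hEn 0
      rw [add_zero] at e0
      rw [← e0]
      have e1 := Loc_En (lx X k (ws k q)) N 0 0 (by omega) (by omega)
      simp only [zero_add] at e1
      have e2 : ((0, 0) : ℤ × ℤ) = 0 := rfl
      rw [e2] at e1
      rw [e1]
      linarith
    · exact hq q haq hqa q le_rfl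
  · left
    intro x hx
    by_contra h
    exact hmat ⟨x, hx, not_le.1 h⟩

/-- the skeleton: `DP` and `T3` imply that the configuration is a lattice without a point -/
theorem skeleton {V : ℂ → ℝ} {κ el : ℝ} (hD : DP V κ el) (hT : T3 V κ el) {s : ℂ} (hs : s ∈ Lam) (g : ℂ → ℂ)
    (hfin : ((Lam \ {s}) ∩ {c | g c ≠ c}).Finite)
    (hg : ∀ c ∈ Lam \ {s}, ∀ d ∈ Lam \ {s}, c ≠ d → (1 : ℝ) ≤ dist (g c) (g d)) :
    ∃ z ∈ Lam, g '' (Lam \ {s}) = Lam \ {z} := by
  set X := g '' (Lam \ {s}) with hXdef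
  obtain ⟨S, Y, hconf, -, -⟩ := cfg hs g hfin hg 0
  rw [← hXdef] at hconf
  obtain ⟨t, htL, ht⟩ := Main_count hconf
  obtain ⟨M, hM⟩ := Main_far hconf
  have hX : Sep X := hconf.sep
  -- `t` is in no good set
  have h1 : ∀ k, ∃ a N, (∃ p : ℤ × ℤ, 0 ≤ p ∧ a = t + ws k p) ∧ ApexData V κ el X k a N := by
    intro k
    obtain ⟨c, hc⟩ := ws_surj k htL
    have hcG : c ∉ Gk X M k := by
      intro h
      have := (h c le_rfl).1
      rw [← hc] at this
      exact ht this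
    obtain ⟨a, hca, ha, hq⟩ := Main_max hX (hM k) hcG
    obtain ⟨N, hN⟩ := Main_apex hD hX (hM k) ha hq
    refine ⟨ws k a, N, ⟨a - c, by simpa using hca, ?_⟩, hN⟩
    rw [hc, ← ws_add]
    congr 1
    abel
  choose a N h2 h3 using h1
  exact hT s hs g hfin hg X hXdef t a N htL h2 h3

end Pool.Agent.H63.P6
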