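import Pool.Agent.H63.P6.Main

/-!
# T5: the first half of the frozen statement S08893 from `DP` and `T3`
-/

set_option autoImplicit false

open Pool.Agent.H20.AL Pool.Agent.H16.T3

noncomputable section

namespace Pool.Agent.H63.P6

theorem first_half {V : ℂ → ℝ} {κ el : ℝ} (hD : DP V κ el) (hT : T3 V κ el) :
    ∀ H : Set ℂ, H = {z : ℂ | ∃ m n : ℤ, z = (m : ℂ) + (n : ℂ) * ((1/2 : ℂ) + ((Real.sqrt 3 / 2 : ℝ) : ℂ) * Complex.I)} →
    ∀ s ∈ H, ∀ g : ℂ → ℂ, ((H \ {s}) ∩ {c | g c ≠ c}).Finite →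
      (∀ c ∈ H \ {s}, ∀ d ∈ H \ {s}, c ≠ d → (1 : ℝ) ≤ dist (g c) (g d)) →
      ∃ φ : ℂ ≃ᵢ ℂ, φ '' (H \ {s}) = g '' (H \ {s}) := by
  intro H hH s hs g hfin hg
  have hL : H = Lam := hH
  subst hL
  obtain ⟨z, hz, hX⟩ := skeleton hD hT hs g hfin hg
  refine ⟨IsometryEquiv.addRight (z - s), ?_⟩
  rw [hX]
  obtain ⟨p, rfl⟩ := ws_surj 0 hs
  obtain ⟨q, rfl⟩ := ws_surj 0 hz
  have hneg : ∀ p q : ℤ × ℤ, ws 0 q - ws 0 p = ws 0 (q - p) := by
    intro p q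
    have h := ws_add 0 (q - p) p
    rw [sub_add_cancel] at h
    rw [h]; ring
  ext w
  constructor
  · rintro ⟨c, ⟨hc, hcs⟩, rfl⟩
    refine ⟨?_, ?_⟩
    · change c + (ws 0 q - ws 0 p) ∈ Lam
      rw [hneg]
      exact lam_add hc (ws_mem _ _)
    · intro h
      apply hcs
      have h2 : c + (ws 0 q - ws 0 p) = ws 0 q := h
      have : c = ws 0 p := by linear_combination h2
      exact this
  · rintro ⟨hw, hwq⟩
    refine ⟨w + (ws 0 p - ws 0 q), ⟨?_, ?_⟩, ?_⟩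
    · rw [hneg]
      exact lam_add hw (ws_mem _ _)
    · intro h
      apply hwq
      have h2 : w + (ws 0 p - ws 0 q) = ws 0 p := h
      have : w = ws 0 q := by linear_combination h2
      exact this
    · change w + (ws 0 p - ws 0 q) + (ws 0 q - ws 0 p) = w
      ring

end Pool.Agent.H63.P6
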