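import Pool.Agent.H30.P6.Cfg
import Pool.Agent.H63.P6.Defs

/-!
# V1: the frames of the apex (MP_591ade_co, p = 6)

Consequences of `V30 v ≤ 1/3` (here in the form `VLe (2 * v.re / √3) (2 * v.im) (1 / 3)`, use `V30_le_iff.1`) for the frames
`d1 + v1, d2 + v2, d3 + v3` seen from the apex site (here 0): norms, directions, convexity of the quadrilateral, and (with packing)
the angle between the first and the third frame is `> 111.9` degrees.
-/

set_option autoImplicit false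

open Pool.Agent.H20.AL Pool.Agent.H16.T3 Pool.Agent.H30.P6

noncomputable section

namespace Pool.Agent.H63.P6

/-- `V30 v ≤ 1/3` -/
def K30 (v : ℂ) : Prop := VLe (2 * v.re / √3) (2 * v.im) (1 / 3)

theorem V1_s3 : √3 * √3 = 3 := Real.mul_self_sqrt (by norm_num)
theorem V1_s3p : 0 < √3 := Real.sqrt_pos.2 (by norm_num)
theorem V1_lo : 17320 / 10000 < √3 := Real.lt_sqrt_of_sq_lt (by norm_num)
theorem V1_hi : √3 < 17321 / 10000 := by rw [Real.sqrt_lt' (by norm_num)]; norm_num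

theorem V1_re (v : ℂ) : v.re = √3 / 2 * (2 * v.re / √3) := by
  have := V1_s3p.ne'
  field_simp

theorem V1_im (v : ℂ) : v.im = (2 * v.im) / 2 := by ring

theorem V1_nsq (w : ℂ) : ‖w‖ ^ 2 = w.re ^ 2 + w.im ^ 2 := by
  rw [Complex.sq_norm, Complex.normSq_apply]; ring

theorem V1_c1 (v : ℂ) : (d1 + v).re = √3 / 2 * (1 + 2 * v.re / √3) ∧ (d1 + v).im = (1 + 2 * v.im) / 2 := by
  constructor
  · rw [Complex.add_re]
    have := V1_re v
    simp only [d1]
    linarith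
  · rw [Complex.add_im]; simp only [d1]; ring

theorem V1_c2 (v : ℂ) : (d2 + v).re = √3 / 2 * (2 * v.re / √3) ∧ (d2 + v).im = (2 + 2 * v.im) / 2 := by
  constructor
  · rw [Complex.add_re, ← V1_re]; simp only [d2]; ring
  · rw [Complex.add_im]; simp only [d2]; ring

theorem V1_c3 (v : ℂ) : (d3 + v).re = -(√3 / 2 * (1 - 2 * v.re / √3)) ∧ (d3 + v).im = (1 + 2 * v.im) / 2 := by
  constructor
  · rw [Complex.add_re]
    have := V1_re v
    simp only [d3]
    linarith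
  · rw [Complex.add_im]; simp only [d3]; ring

/-- norm of the first frame, in coordinates -/
theorem V1_num1 {X Y : ℝ} (k : VLe X Y (1 / 3)) : 3 * (1 + X) ^ 2 + (1 + Y) ^ 2 ≤ 4 * (12279 / 10000) ^ 2 := by
  have k1 := k.f1
  have k6 := k.f6
  have k7 := k.f7
  have k8 := k.f8
  have k10 := k.f10
  have k12 := k.f12
  nlinarith [mul_nonneg (show 0 ≤ 50 / 129 - X by linarith) (show 0 ≤ X + 50 / 129 by linarith),
    mul_nonneg (show 0 ≤ 2 / 3 - 3 * X - Y by linarith) (show 0 ≤ X + 50 / 129 by linarith),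
    mul_nonneg (show 0 ≤ 2 / 3 - 3 * X - Y by linarith) (show 0 ≤ Y + 25 / 36 by linarith),
    mul_nonneg (show 0 ≤ 25 / 84 - X - Y by linarith) (show 0 ≤ Y + 25 / 36 by linarith),
    mul_nonneg (show 0 ≤ 50 / 129 - X by linarith) (show 0 ≤ Y + 25 / 36 by linarith)]

theorem V1_num2 {X Y : ℝ} (k : VLe X Y (1 / 3)) : 3 * X ^ 2 + (2 + Y) ^ 2 ≤ 4 * (1083 / 1000) ^ 2 := by
  have key : ∀ x : ℝ, 0 ≤ x → 3 * x + Y ≤ 2 / 3 → x + Y ≤ 25 / 84 → 3 * x ^ 2 + (2 + Y) ^ 2 ≤ 4 * (1083 / 1000) ^ 2 := by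
    intro x hx h8 h10
    have k1 := k.f1
    have k12 := k.f12
    nlinarith
  rcases le_total 0 X with hX | hX
  · exact key X hX (by linarith [k.f8]) (by linarith [k.f10])
  · have := key (-X) (by linarith) (by linarith [k.f9]) (by linarith [k.f11])
    rwa [neg_sq] at this

/-- norm of the first frame -/
theorem V1_n1 {v : ℂ} (h : K30 v) : ‖d1 + v‖ ≤ 12279 / 10000 := by
  have k := V1_num1 h
  have s := V1_s3
  have hn := V1_nsq (d1 + v)
  rw [(V1_c1 v).1, (V1_c1 v).2] at hn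
  have hn' : ‖d1 + v‖ ^ 2 = (3 * (1 + 2 * v.re / √3) ^ 2 + (1 + 2 * v.im) ^ 2) / 4 := by
    rw [hn]; linear_combination ((1 + 2 * v.re / √3) ^ 2 / 4) * s
  have h2 : ‖d1 + v‖ ^ 2 ≤ (12279 / 10000) ^ 2 := by rw [hn']; linarith
  exact (abs_le_of_sq_le_sq' h2 (by norm_num)).2

/-- norm of the third frame -/
theorem V1_n3 {v : ℂ} (h : K30 v) : ‖d3 + v‖ ≤ 12279 / 10000 := by
  have k := V1_num1 (VLe.mirror h)
  have s := V1_s3
  have hn := V1_nsq (d3 + v)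
  rw [(V1_c3 v).1, (V1_c3 v).2] at hn
  have hn' : ‖d3 + v‖ ^ 2 = (3 * (1 + -(2 * v.re / √3)) ^ 2 + (1 + 2 * v.im) ^ 2) / 4 := by
    rw [hn]; linear_combination ((1 - 2 * v.re / √3) ^ 2 / 4) * s
  have h2 : ‖d3 + v‖ ^ 2 ≤ (12279 / 10000) ^ 2 := by rw [hn']; linarith
  exact (abs_le_of_sq_le_sq' h2 (by norm_num)).2

/-- norm of the second frame -/
theorem V1_n2 {v : ℂ} (h : K30 v) : ‖d2 + v‖ ≤ 1083 / 1000 := by
  have k := V1_num2 h
  have s := V1_s3
  have hn := V1_nsq (d2 + v)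
  rw [(V1_c2 v).1, (V1_c2 v).2] at hn
  have hn' : ‖d2 + v‖ ^ 2 = (3 * (2 * v.re / √3) ^ 2 + (2 + 2 * v.im) ^ 2) / 4 := by
    rw [hn]; linear_combination ((2 * v.re / √3) ^ 2 / 4) * s
  have h2 : ‖d2 + v‖ ^ 2 ≤ (1083 / 1000) ^ 2 := by rw [hn']; linarith
  exact (abs_le_of_sq_le_sq' h2 (by norm_num)).2

/-- direction of the first frame: between 7.4 and 38.3 degrees -/
theorem V1_dir1 {v : ℂ} (h : K30 v) : 0 < (d1 + v).re ∧ 0 < (d1 + v).im ∧
    13 / 100 * (d1 + v).re ≤ (d1 + v).im ∧ (d1 + v).im ≤ 789 / 1000 * (d1 + v).re := by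
  have k1 := h.f1
  have k2 := h.f2
  have k7 := h.f7
  have k9 := h.f9
  have k11 := h.f11
  have hX : 0 < 1 + 2 * v.re / √3 := by linarith
  have b1 := mul_le_mul_of_nonneg_right V1_hi.le hX.le
  have b2 := mul_le_mul_of_nonneg_right V1_lo.le hX.le
  rw [(V1_c1 v).1, (V1_c1 v).2]
  refine ⟨mul_pos (by linarith [V1_s3p]) hX, by linarith, ?_, ?_⟩
  · linarith
  · linarith

/-- direction of the third frame (mirror) -/
theorem V1_dir3 {v : ℂ} (h : K30 v) : (d3 + v).re < 0 ∧ 0 < (d3 + v).im ∧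
    13 / 100 * -(d3 + v).re ≤ (d3 + v).im ∧ (d3 + v).im ≤ 789 / 1000 * -(d3 + v).re := by
  have k1 := h.f1
  have k3 := h.f3
  have k6 := h.f6
  have k8 := h.f8
  have k10 := h.f10
  have hX : 0 < 1 - 2 * v.re / √3 := by linarith
  have b1 := mul_le_mul_of_nonneg_right V1_hi.le hX.le
  have b2 := mul_le_mul_of_nonneg_right V1_lo.le hX.le
  rw [(V1_c3 v).1, (V1_c3 v).2]
  have := mul_pos (show 0 < √3 / 2 by linarith [V1_s3p]) hX
  refine ⟨by linarith, by linarith, ?_, ?_⟩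
  · linarith
  · linarith

/-- the quadrilateral `0, x1, x2, x3` is convex -/
theorem V1_cr {v1 v2 v3 : ℂ} (h1 : K30 v1) (h2 : K30 v2) (h3 : K30 v3) :
    0 < cr (d1 + v1) (d2 + v2) ∧ 0 < cr (d2 + v2) (d3 + v3) ∧ 0 < cr (d1 + v1) (d3 + v3) ∧
      0 < cr ((d2 + v2) - (d1 + v1)) ((d3 + v3) - (d2 + v2)) := by
  have s := V1_s3p
  have e1 := V1_c1 v1
  have e2 := V1_c2 v2
  have e3 := V1_c3 v3
  have a1 := h1.f1
  have a6 := h1.f6
  have a7 := h1.f7
  have a12 := h1.f12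
  have b1 := h2.f1
  have b6 := h2.f6
  have b7 := h2.f7
  have b12 := h2.f12
  have c1 := h3.f1
  have c6 := h3.f6
  have c7 := h3.f7
  have c12 := h3.f12
  set X1 := 2 * v1.re / √3
  set Y1 := 2 * v1.im
  set X2 := 2 * v2.re / √3
  set Y2 := 2 * v2.im
  set X3 := 2 * v3.re / √3
  set Y3 := 2 * v3.im
  refine ⟨?_, ?_, ?_, ?_⟩
  · have e : cr (d1 + v1) (d2 + v2) = √3 / 4 * ((1 + X1) * (2 + Y2) - (1 + Y1) * X2) := by
      unfold cr
      rw [e1.1, e1.2, e2.1, e2.2]; ring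
    rw [e]
    apply mul_pos (by linarith)
    have m1 : 79 / 129 * (47 / 36) ≤ (1 + X1) * (2 + Y2) :=
      mul_le_mul (by linarith) (by linarith) (by norm_num) (by linarith)
    have m2 : (1 + Y1) * X2 ≤ 193 / 168 * (50 / 129) := by
      have := mul_le_mul_of_nonneg_left (show X2 ≤ 50 / 129 by linarith) (show 0 ≤ 1 + Y1 by linarith)
      have := mul_le_mul_of_nonneg_right (show 1 + Y1 ≤ 193 / 168 by linarith) (show (0 : ℝ) ≤ 50 / 129 by norm_num)
      linarith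
    linarith
  · have e : cr (d2 + v2) (d3 + v3) = √3 / 4 * ((1 - X3) * (2 + Y2) + (1 + Y3) * X2) := by
      unfold cr
      rw [e3.1, e3.2, e2.1, e2.2]; ring
    rw [e]
    apply mul_pos (by linarith)
    have m1 : 79 / 129 * (47 / 36) ≤ (1 - X3) * (2 + Y2) :=
      mul_le_mul (by linarith) (by linarith) (by norm_num) (by linarith)
    have m2 : -(193 / 168 * (50 / 129)) ≤ (1 + Y3) * X2 := by
      have := mul_le_mul_of_nonneg_left (show -(50 / 129) ≤ X2 by linarith) (show 0 ≤ 1 + Y3 by linarith)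
      have := mul_le_mul_of_nonneg_right (show 1 + Y3 ≤ 193 / 168 by linarith) (show (0 : ℝ) ≤ 50 / 129 by norm_num)
      linarith
    linarith
  · have e : cr (d1 + v1) (d3 + v3) = √3 / 4 * ((1 + X1) * (1 + Y3) + (1 + Y1) * (1 - X3)) := by
      unfold cr
      rw [e1.1, e1.2, e3.1, e3.2]; ring
    rw [e]
    apply mul_pos (by linarith)
    have m1 := mul_pos (show 0 < 1 + X1 by linarith) (show 0 < 1 + Y3 by linarith)
    have m2 := mul_pos (show 0 < 1 + Y1 by linarith) (show 0 < 1 - X3 by linarith)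
    linarith
  · have e : cr ((d2 + v2) - (d1 + v1)) ((d3 + v3) - (d2 + v2)) =
        √3 / 4 * ((1 + X1 - X2) * (1 + Y2 - Y3) + (1 + Y2 - Y1) * (1 + X2 - X3)) := by
      unfold cr
      rw [Complex.sub_re, Complex.sub_re, Complex.sub_im, Complex.sub_im, e1.1, e1.2, e2.1, e2.2, e3.1, e3.2]
      ring
    rw [e]
    apply mul_pos (by linarith)
    have m1 := mul_pos (show 0 < 1 + X1 - X2 by linarith) (show 0 < 1 + Y2 - Y3 by linarith)
    have m2 := mul_pos (show 0 < 1 + Y2 - Y1 by linarith) (show 0 < 1 + X2 - X3 by linarith)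
    linarith

/-! ## the angle between the first and the third frame -/

/-- a point at distance `≥ 1` from `(s, 1 + t)` lies below the ray through the point `(s + w, h)` of the circle -/
theorem V1_ray {p q s t w h : ℝ} (hh : 0 < h) (hq : 0 < q) (hqh : q ≤ h) (hps : s < p)
    (hc : 1 ≤ (p - s) ^ 2 + (1 + t - q) ^ 2) (hw : w ^ 2 + (1 + t - h) ^ 2 = 1)
    (hx : h * (s ^ 2 + (1 + t) ^ 2 - 1) ≤ q * ((s + w) ^ 2 + h ^ 2)) : q * (s + w) ≤ h * p := by
  by_contra hcon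
  push Not at hcon
  -- with `μ = q (s + w) / h - s > p - s > 0`
  have h1 : h * (p - s) < q * (s + w) - h * s := by linarith
  have h2 : 0 < h * (p - s) := mul_pos hh (by linarith)
  have h3 : (h * (p - s)) ^ 2 < (q * (s + w) - h * s) ^ 2 := pow_lt_pow_left₀ h1 h2.le (by norm_num)
  have h4 : h ^ 2 * 1 ≤ h ^ 2 * ((p - s) ^ 2 + (1 + t - q) ^ 2) := mul_le_mul_of_nonneg_left hc (by positivity)
  have h5 : (q * (s + w) - h * s) ^ 2 + h ^ 2 * (1 + t - q) ^ 2 - h ^ 2 =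
      (q - h) * (q * ((s + w) ^ 2 + h ^ 2) - h * (s ^ 2 + (1 + t) ^ 2 - 1)) := by
    linear_combination (q * h) * hw
  have h6 : (q - h) * (q * ((s + w) ^ 2 + h ^ 2) - h * (s ^ 2 + (1 + t) ^ 2 - 1)) ≤ 0 :=
    mul_nonpos_of_nonpos_of_nonneg (by linarith) (by linarith)
  nlinarith

theorem V1_comb {p1 q1 p3 q3 a b h T : ℝ} (hh : 0 < h) (hq1 : 0 < q1) (hq3 : 0 < q3) (h1 : q1 * a ≤ h * p1)
    (h3 : q3 * b ≤ h * p3) (ha : h ≤ T * a) (hb : h ≤ T * b) (hT : 0 < T) (hab : (a + b) * h + T * h ^ 2 ≤ T * (a * b)) :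
    q1 * p3 + q3 * p1 ≤ T * (p1 * p3 - q1 * q3) := by
  have k1 : 0 ≤ h * (T * p3 - q3) := by
    have := mul_le_mul_of_nonneg_left h3 hT.le
    have := mul_le_mul_of_nonneg_left hb hq3.le
    nlinarith
  have k2 := mul_nonneg (sub_nonneg.2 h1) k1
  have k3 := mul_nonneg hq1.le (mul_nonneg (sub_nonneg.2 h3) (sub_nonneg.2 ha))
  have k4 := mul_nonneg hq1.le (mul_nonneg hq3.le (sub_nonneg.2 hab))
  have key : h ^ 2 * (T * (p1 * p3 - q1 * q3) - (q1 * p3 + q3 * p1)) =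
      (h * p1 - q1 * a) * (h * (T * p3 - q3)) + q1 * ((h * p3 - q3 * b) * (T * a - h)) +
        q1 * (q3 * (T * (a * b) - ((a + b) * h + T * h ^ 2))) := by ring
  have h2 : 0 < h ^ 2 := by positivity
  have h5 : 0 ≤ h ^ 2 * (T * (p1 * p3 - q1 * q3) - (q1 * p3 + q3 * p1)) := by rw [key]; linarith
  have h6 := nonneg_of_mul_nonneg_right h5 h2
  linarith

/-- the quadratic inequality over `K` -/
theorem V1_quad {x y : ℝ} (hy0 : 0 ≤ y) (hx0 : 0 ≤ x) (hy : y ≤ 1 / 2) (h10 : x + 2 * y ≤ 193 / 168)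
    (h8 : 3 * x + 2 * y ≤ 255 / 168) :
    (180673 / 100000) * y ^ 2 + (18525 / 10000) * x ^ 2 ≤ 49429 / 100000 := by
  rcases le_total y (135 / 280) with h | h
  · nlinarith [mul_nonneg hy0 (sub_nonneg.2 h), mul_nonneg hx0 (show 0 ≤ 255 / 168 - 2 * y - 3 * x by linarith)]
  · nlinarith [mul_nonneg (sub_nonneg.2 h) (sub_nonneg.2 hy), mul_nonneg hx0 (show 0 ≤ 193 / 168 - 2 * y - x by linarith)]

theorem V1_hx {X Y q s t w : ℝ} (hs : s = √3 / 2 * X) (ht : t = Y / 2) (hw : √3 / 2 ≤ w) (hq : 11 / 72 ≤ q)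
    (x7 : -(50 / 129) ≤ X) (x9 : -3 * X + Y ≤ 2 / 3) (hn : 3 * X ^ 2 + (2 + Y) ^ 2 ≤ 4 * (1083 / 1000) ^ 2)
    (y1 : -(25 / 36) ≤ Y) :
    193 / 336 * (s ^ 2 + (1 + t) ^ 2 - 1) ≤ q * ((s + w) ^ 2 + (193 / 336) ^ 2) := by
  have s3 := V1_s3
  have s3p := V1_s3p
  have e : s ^ 2 + (1 + t) ^ 2 = (3 * X ^ 2 + (2 + Y) ^ 2) / 4 := by
    rw [hs, ht]; linear_combination (X ^ 2 / 4) * s3
  have hg : 0 ≤ (s + w) ^ 2 + (193 / 336) ^ 2 := by positivity
  have h1 := mul_le_mul_of_nonneg_right hq hg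
  refine le_trans ?_ h1
  rw [e]
  have key : ∀ c : ℝ, 0 ≤ 1 - c → -c ≤ X → 3 / 4 * (1 - c) ^ 2 ≤ (s + w) ^ 2 := by
    intro c hc hX
    have h2 : √3 / 2 * (1 - c) ≤ s + w := by
      rw [hs]
      have := mul_le_mul_of_nonneg_left hX (show 0 ≤ √3 / 2 by linarith)
      linarith
    have h3 := pow_le_pow_left₀ (mul_nonneg (by linarith) hc) h2 2
    have h4 : (√3 / 2 * (1 - c)) ^ 2 = 3 / 4 * (1 - c) ^ 2 := by linear_combination ((1 - c) ^ 2 / 4) * s3
    rwa [h4] at h3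
  rcases le_total (-(1 / 5)) X with hX | hX
  · have := key (1 / 5) (by norm_num) hX
    norm_num at this hn ⊢
    linarith
  · have := key (50 / 129) (by norm_num) x7
    have h5 : 3 * X ^ 2 + (2 + Y) ^ 2 ≤ 3 * (1 / 5) ^ 2 + (2 + 1 / 15) ^ 2 := by
      have h6 : (2 + Y) ^ 2 ≤ (8 / 3 + 3 * X) ^ 2 := pow_le_pow_left₀ (by linarith) (by linarith) 2
      nlinarith [mul_nonneg (show 0 ≤ -(1 / 5) - X by linarith) (show 0 ≤ X + 50 / 129 by linarith)]
    norm_num at this h5 ⊢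
    linarith

/-- **The angle between the first and the third frame is at least 112 degrees** (`cos = -3/8`). -/
theorem V1_ang {v1 v2 v3 : ℂ} (h1 : K30 v1) (h2 : K30 v2) (h3 : K30 v3) (e12 : 1 ≤ ‖(d2 + v2) - (d1 + v1)‖)
    (e23 : 1 ≤ ‖(d3 + v3) - (d2 + v2)‖) : dt (d1 + v1) (d3 + v3) ≤ -(3 / 8) * (‖d1 + v1‖ * ‖d3 + v3‖) := by
  have s3 := V1_s3
  have s3p := V1_s3p
  obtain ⟨p1pos, q1pos, -, -⟩ := V1_dir1 h1
  obtain ⟨p3pos, q3pos, -, -⟩ := V1_dir3 h3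
  have g1 := V1_c1 v1
  have g2 := V1_c2 v2
  have g3 := V1_c3 v3
  have n2 := V1_num2 h2
  have a1 := h1.f1
  have a7 := h1.f7
  have a12 := h1.f12
  have b1 := h2.f1
  have b6 := h2.f6
  have b7 := h2.f7
  have b8 := h2.f8
  have b9 := h2.f9
  have b10 := h2.f10
  have b11 := h2.f11
  have b12 := h2.f12
  have c1 := h3.f1
  have c6 := h3.f6
  have c12 := h3.f12
  set X1 := 2 * v1.re / √3
  set Y1 := 2 * v1.im
  set X2 := 2 * v2.re / √3
  set Y2 := 2 * v2.im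
  set X3 := 2 * v3.re / √3
  set Y3 := 2 * v3.im
  obtain ⟨s, hs⟩ : ∃ s : ℝ, s = √3 / 2 * X2 := ⟨_, rfl⟩
  obtain ⟨t, ht⟩ : ∃ t : ℝ, t = Y2 / 2 := ⟨_, rfl⟩
  obtain ⟨y, hy⟩ : ∃ y : ℝ, y = 1 + t - 193 / 336 := ⟨_, rfl⟩
  obtain ⟨w, hw⟩ : ∃ w : ℝ, w = √(1 - y ^ 2) := ⟨_, rfl⟩
  have hy0 : 0 ≤ y := by rw [hy, ht]; linarith
  have hy1 : y ≤ 1 / 2 := by rw [hy, ht]; linarith
  have hyy : y ^ 2 ≤ 1 / 4 := by nlinarith
  have hw2 : w ^ 2 = 1 - y ^ 2 := by rw [hw]; exact Real.sq_sqrt (by linarith)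
  have hw0 : 0 ≤ w := by rw [hw]; exact Real.sqrt_nonneg _
  have hwl : √3 / 2 ≤ w := by
    have h4 : (√3 / 2) ^ 2 ≤ w ^ 2 := by
      have : (√3 / 2) ^ 2 = 3 / 4 := by linear_combination (1 / 4) * s3
      rw [this, hw2]; linarith
    exact (abs_le_of_sq_le_sq' h4 hw0).2
  have hwe : w ^ 2 + (1 + t - 193 / 336) ^ 2 = 1 := by rw [← hy, hw2]; ring
  have sq12 : 1 ≤ ‖(d2 + v2) - (d1 + v1)‖ ^ 2 := by nlinarith
  have sq23 : 1 ≤ ‖(d3 + v3) - (d2 + v2)‖ ^ 2 := by nlinarith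
  rw [V1_nsq, Complex.sub_re, Complex.sub_im, g2.1, g2.2] at sq12 sq23
  rw [← hs] at sq12 sq23
  have t2 : (2 + Y2) / 2 = 1 + t := by rw [ht]; ring
  rw [t2] at sq12 sq23
  have q1lo : 11 / 72 ≤ (d1 + v1).im := by rw [g1.2]; linarith
  have q1hi : (d1 + v1).im ≤ 193 / 336 := by rw [g1.2]; linarith
  have q3lo : 11 / 72 ≤ (d3 + v3).im := by rw [g3.2]; linarith
  have q3hi : (d3 + v3).im ≤ 193 / 336 := by rw [g3.2]; linarith
  have r1 := V1_ray (p := (d1 + v1).re) (q := (d1 + v1).im) (s := s) (t := t) (w := w) (h := 193 / 336)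
    (by norm_num) q1pos q1hi (by
      rw [g1.1, hs]
      exact mul_lt_mul_of_pos_left (by linarith) (by linarith)) (by
      refine sq12.trans (le_of_eq ?_)
      ring) hwe (V1_hx hs ht hwl q1lo (by linarith) (by linarith) n2 (by linarith))
  have r3 := V1_ray (p := -(d3 + v3).re) (q := (d3 + v3).im) (s := -s) (t := t) (w := w) (h := 193 / 336)
    (by norm_num) q3pos q3hi (by
      rw [g3.1, hs]
      have := mul_lt_mul_of_pos_left (show -X2 < 1 - X3 by linarith) (show 0 < √3 / 2 by linarith)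
      linarith) (by
      refine sq23.trans (le_of_eq ?_)
      ring) hwe (V1_hx (X := -X2) (by rw [hs]; ring) ht hwl q3lo (by linarith) (by linarith)
        (by rw [neg_sq]; exact n2) (by linarith))
  have hsb : s ≤ √3 / 2 * (50 / 129) := by
    rw [hs]; exact mul_le_mul_of_nonneg_left (by linarith) (by linarith)
  have hsb' : -(√3 / 2 * (50 / 129)) ≤ s := by
    rw [hs]
    have := mul_le_mul_of_nonneg_left (show -(50 / 129) ≤ X2 by linarith) (show 0 ≤ √3 / 2 by linarith)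
    linarith
  have hlo := V1_lo
  have hhi := V1_hi
  have hquad : (180673 / 100000) * y ^ 2 + (18525 / 10000) * X2 ^ 2 ≤ 49429 / 100000 := by
    rcases le_total 0 X2 with hX | hX
    · exact V1_quad hy0 hX hy1 (by rw [hy, ht]; linarith) (by rw [hy, ht]; linarith)
    · have := V1_quad (x := -X2) hy0 (by linarith) hy1 (by rw [hy, ht]; linarith) (by rw [hy, ht]; linarith)
      rwa [neg_sq] at this
  have hww : √3 * w ≤ 7 / 4 - y ^ 2 := by nlinarith [sq_nonneg (w - √3 / 2)]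
  have hwub : w ≤ 17321 / 30000 * (7 / 4 - y ^ 2) := by
    have h5 : w = √3 / 3 * (√3 * w) := by linear_combination (-(w / 3)) * s3
    have h6 := mul_le_mul_of_nonneg_left hww (show 0 ≤ √3 / 3 by linarith)
    have h7 := mul_le_mul_of_nonneg_right (show √3 / 3 ≤ 17321 / 30000 by linarith) (show 0 ≤ 7 / 4 - y ^ 2 by linarith)
    linarith
  have hs2 : s ^ 2 = 3 / 4 * X2 ^ 2 := by rw [hs]; linear_combination (X2 ^ 2 / 4) * s3
  have key := V1_comb (p1 := (d1 + v1).re) (q1 := (d1 + v1).im) (p3 := -(d3 + v3).re) (q3 := (d3 + v3).im)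
    (a := s + w) (b := -s + w) (h := 193 / 336) (T := 247 / 100) (by norm_num) q1pos q3pos r1 r3
    (by linarith) (by linarith) (by norm_num) (by
      have e : (s + w) * (-s + w) = w ^ 2 - s ^ 2 := by ring
      have hy2 := sq_nonneg y
      rw [e, hw2, hs2]
      linarith)
  have hN : (‖d1 + v1‖ * ‖d3 + v3‖) ^ 2 ≤ (8 / 3 * ((d1 + v1).re * -(d3 + v3).re - (d1 + v1).im * (d3 + v3).im)) ^ 2 := by
    rw [mul_pow, V1_nsq, V1_nsq]
    have h8 : 0 ≤ (d1 + v1).im * -(d3 + v3).re + (d3 + v3).im * (d1 + v1).re :=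
      add_nonneg (mul_nonneg q1pos.le (by linarith)) (mul_nonneg q3pos.le p1pos.le)
    have h9 := pow_le_pow_left₀ h8 key 2
    have h10 := sq_nonneg ((d1 + v1).re * -(d3 + v3).re - (d1 + v1).im * (d3 + v3).im)
    nlinarith
  have hD : 0 ≤ (d1 + v1).re * -(d3 + v3).re - (d1 + v1).im * (d3 + v3).im := by
    have h8 : 0 ≤ (d1 + v1).im * -(d3 + v3).re + (d3 + v3).im * (d1 + v1).re :=
      add_nonneg (mul_nonneg q1pos.le (by linarith)) (mul_nonneg q3pos.le p1pos.le)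
    linarith
  have hfin := (abs_le_of_sq_le_sq' hN (by linarith)).2
  unfold dt
  linarith

end Pool.Agent.H63.P6
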