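import Pool.Agent.H63.P6.Ind
import Pool.Agent.H20.AL.CFG

/-!
# T5, part B: the global skeleton, definitions

`X = g '' (Lam \ {s})`.  Wedges `k = 0, 1, 2` with the boundary directions `om ^ (2k)` and `om ^ (2k+2)` (and the axis `om ^ (2k+1)`).
`pos X t` is the point of `X` matched with the site `t`.  `lx X k a p` is the position of the site `a + ws k p` in the rotated frame
of the wedge with apex `a`.
-/

set_option autoImplicit false

open Pool.Agent.H20.AL Pool.Agent.H16.T3 Finset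

noncomputable section

namespace Pool.Agent.H63.P6

/-- matched site -/
def Mat (X : Set ℂ) (t : ℂ) : Prop := ∃ x ∈ X, dist x t < 1 / 2

open Classical in
/-- the point of `X` matched with the site `t` (and `t` itself if there is none) -/
def pos (X : Set ℂ) (t : ℂ) : ℂ := if h : Mat X t then h.choose else t

/-- the site with coordinates `p` in the wedge `k` with apex `0` -/
def ws (k : Fin 3) (p : ℤ × ℤ) : ℂ := (p.1 : ℂ) * om ^ (2 * (k : ℕ)) + (p.2 : ℂ) * om ^ (2 * (k : ℕ) + 2)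

/-- the rotation of the wedge `k` to the standard wedge with axis 90 degrees -/
def rho (k : Fin 3) : ℂ := d1 * om ^ (6 - 2 * (k : ℕ))

/-- positions in the frame of the wedge `k` with apex `a` -/
def lx (X : Set ℂ) (k : Fin 3) (a : ℂ) (p : ℤ × ℤ) : ℂ := rho k * (pos X (a + ws k p) - a)

/-- what is known about the wedge `k` at a maximal bad apex `a` -/
structure ApexData (V : ℂ → ℝ) (κ el : ℝ) (X : Set ℂ) (k : Fin 3) (a : ℂ) (M : ℤ) : Prop where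
  mem : a ∈ Lam
  one : 1 ≤ M
  far : ∀ p : ℤ × ℤ, 0 ≤ p → (M ≤ p.1 ∨ M ≤ p.2) → a + ws k p ∈ X ∧ pos X (a + ws k p) = a + ws k p
  mat : ∀ p : ℤ × ℤ, 0 ≤ p → p ≠ 0 → pos X (a + ws k p) ∈ X ∧ dist (pos X (a + ws k p)) (a + ws k p) < 1 / 2
  en : ∀ p : ℤ × ℤ, 0 ≤ p → p ≠ 0 → En (lx X k a) M p ≤ 1 / 3
  pot : ∀ p : ℤ × ℤ, 0 ≤ p → p ≠ 0 → V (disp (lx X k a) p) ≤ En (lx X k a) M p
  star : ∀ p : ℤ × ℤ, 0 ≤ p → p ≠ 0 → StarAt el (lx X k a) p
  phi : Phi V κ (disp (lx X k a) (1, 0)) (disp (lx X k a) (1, 1)) (disp (lx X k a) (0, 1)) ≤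
    En (lx X k a) M (1, 0) + En (lx X k a) M (0, 1) - En (lx X k a) M (1, 1)
  bad : (∀ x ∈ X, 1 / 2 ≤ dist x a) ∨
    (Mat X a ∧ 1 / 3 < fan (lx X k a) 0 + En (lx X k a) M (1, 0) + En (lx X k a) M (0, 1) - En (lx X k a) M (1, 1))

/-- what the geometric part T3 has to prove -/
def T3 (V : ℂ → ℝ) (κ el : ℝ) : Prop :=
  ∀ s ∈ Lam, ∀ g : ℂ → ℂ, ((Lam \ {s}) ∩ {c | g c ≠ c}).Finite →
    (∀ c ∈ Lam \ {s}, ∀ d ∈ Lam \ {s}, c ≠ d → (1 : ℝ) ≤ dist (g c) (g d)) →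
    ∀ X : Set ℂ, X = g '' (Lam \ {s}) → ∀ (c : ℂ) (a : Fin 3 → ℂ) (M : Fin 3 → ℤ), c ∈ Lam →
    (∀ k, ∃ p : ℤ × ℤ, 0 ≤ p ∧ a k = c + ws k p) → (∀ k, ApexData V κ el X k (a k) (M k)) →
    ∃ z ∈ Lam, X = Lam \ {z}

end Pool.Agent.H63.P6
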