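import Pool.Agent.H16.AP.Defs

/-!
# D1: position of a point of `X` that hits the quadrilateral of a wedge (MP_591ade_co, p = 6)

Local coordinates: apex `0`, frames `x1, x2, x3` near `d1, d2, d3`, `u` the foreign point.
* `d1_near`: `u` within `1/√3` of the quadrilateral has `‖u‖ ≤ .705`;
* `d1_axis`: `1/2 ≤ ‖u‖ ≤ .705` and distances `≥ 1` to the frames give `u.im ≤ -1/5` (no hit needed).
* `D1`: the same for the wedge `k`.
-/

set_option autoImplicit false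

open Set Real

noncomputable section

namespace Pool.Agent.H63.P6

open Pool.Agent.H20.AL Pool.Agent.H16.T3 Pool.Agent.H78.P6 Pool.Agent.H16.AP

theorem D1_nsq (w : ℂ) : ‖w‖ ^ 2 = w.re ^ 2 + w.im ^ 2 := by
  rw [Complex.sq_norm, Complex.normSq_apply]; ring

/-- Stewart -/
theorem D1_stewart (u p a : ℂ) (σ : ℝ) :
    ‖u - (p + (σ : ℂ) * (a - p))‖ ^ 2 = (1 - σ) * ‖u - p‖ ^ 2 + σ * ‖u - a‖ ^ 2 - σ * (1 - σ) * ‖a - p‖ ^ 2 := by
  simp only [D1_nsq]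
  simp
  ring

theorem D1_third : (1 / √3 : ℝ) ^ 2 = 1 / 3 := by
  rw [div_pow, one_pow, Real.sq_sqrt (by norm_num)]

/-- a base edge cannot be hit -/
theorem D1_base {u p a q : ℂ} {σ : ℝ} (h0 : 0 ≤ σ) (h1 : σ ≤ 1) (hl : ‖a - p‖ ≤ 147 / 100) (up : 1 ≤ ‖u - p‖)
    (ua : 1 ≤ ‖u - a‖) (hq : q = p + (σ : ℂ) * (a - p)) (hd : ‖u - q‖ < 1 / √3) : False := by
  have e := D1_stewart u p a σ
  rw [← hq] at e
  have h2 : ‖u - q‖ ^ 2 < 1 / 3 := by
    rw [← D1_third]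
    exact pow_lt_pow_left₀ hd (norm_nonneg _) (by norm_num)
  have h3 : ‖a - p‖ ^ 2 ≤ (147 / 100) ^ 2 := pow_le_pow_left₀ (norm_nonneg _) hl 2
  have h4 : 1 ≤ ‖u - p‖ ^ 2 := by nlinarith
  have h5 : 1 ≤ ‖u - a‖ ^ 2 := by nlinarith
  have h6 : 0 ≤ σ * (1 - σ) := mul_nonneg h0 (by linarith)
  have h7 : σ * (1 - σ) ≤ 1 / 4 := by nlinarith [sq_nonneg (σ - 1 / 2)]
  have h8 := mul_le_mul_of_nonneg_left h3 h6
  have h9 := mul_le_mul_of_nonneg_left h4 (show 0 ≤ 1 - σ by linarith)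
  have h10 := mul_le_mul_of_nonneg_left h5 h0
  nlinarith

/-- a leg is hit only near the apex -/
theorem D1_leg {u a q : ℂ} {σ : ℝ} (h0 : 0 ≤ σ) (h1 : σ ≤ 1) (hl : ‖a‖ ≤ 12207 / 10000) (ua : 1 ≤ ‖u - a‖)
    (hq : q = (σ : ℂ) * a) (hd : ‖u - q‖ < 1 / √3) : ‖u‖ ≤ 705 / 1000 := by
  have e := D1_stewart u 0 a σ
  rw [sub_zero, sub_zero, zero_add, ← hq] at e
  have h2 : ‖u - q‖ ^ 2 < 1 / 3 := by
    rw [← D1_third]
    exact pow_lt_pow_left₀ hd (norm_nonneg _) (by norm_num)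
  have h3 : ‖a‖ ^ 2 ≤ (12207 / 10000) ^ 2 := pow_le_pow_left₀ (norm_nonneg _) hl 2
  have h5 : 1 ≤ ‖u - a‖ ^ 2 := by nlinarith
  have h6 : 0 ≤ σ * (1 - σ) := mul_nonneg h0 (by linarith)
  have h8 := mul_le_mul_of_nonneg_left h3 h6
  have h10 := mul_le_mul_of_nonneg_left h5 h0
  -- (1 - σ) ‖u‖² < 1/3 - σ + σ (1 - σ) R²
  have h11 : (1 - σ) * ‖u‖ ^ 2 < 1 / 3 - σ + σ * (1 - σ) * (12207 / 10000) ^ 2 := by linarith
  have h12 : 1 / 3 - σ + σ * (1 - σ) * (12207 / 10000) ^ 2 ≤ (1 - σ) * (705 / 1000) ^ 2 := by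
    nlinarith [sq_nonneg (σ - 33 / 100), sq_nonneg (σ - 3312 / 10000)]
  have h13 : 0 < 1 - σ := by
    rcases h1.lt_or_eq with h | h
    · linarith
    · exfalso; rw [h] at h11; norm_num at h11
  have h14 : ‖u‖ ^ 2 < (705 / 1000) ^ 2 := by
    by_contra hc
    push Not at hc
    have := mul_le_mul_of_nonneg_left hc h13.le
    linarith
  have := norm_nonneg u
  nlinarith

/-- a point inside a triangle `0, a, b` at distance `≥ 1` from `a` and `b` is near `0` -/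
theorem D1_tri {u a b : ℂ} (hc : 0 < cr a b) (ha : ‖a‖ ≤ 12207 / 10000) (hb : ‖b‖ ≤ 12207 / 10000)
    (ua : 1 ≤ ‖u - a‖) (ub : 1 ≤ ‖u - b‖) (c1 : 0 ≤ cr u b) (c2 : 0 ≤ cr a u) (c3 : 0 ≤ cr (b - a) (u - a)) :
    ‖u‖ ≤ 705 / 1000 := by
  set s := cr u b / cr a b with hs
  set t := cr a u / cr a b with ht
  have hs0 : 0 ≤ s := div_nonneg c1 hc.le
  have ht0 : 0 ≤ t := div_nonneg c2 hc.le
  have hu : u = (s : ℂ) * a + (t : ℂ) * b := by
    have hne : cr a b ≠ 0 := hc.ne'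
    apply Complex.ext
    · simp only [Complex.add_re, Complex.mul_re, Complex.ofReal_re, Complex.ofReal_im, zero_mul, sub_zero, hs, ht]
      field_simp
      simp only [cr]; ring
    · simp only [Complex.add_im, Complex.mul_im, Complex.ofReal_re, Complex.ofReal_im, zero_mul, add_zero, hs, ht]
      field_simp
      simp only [cr]; ring
  have hst : s + t ≤ 1 := by
    have h : cr (b - a) (u - a) = cr a b * (1 - s - t) := by
      rw [hu]; simp [cr]; ring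
    rw [h] at c3
    by_contra hcon
    push Not at hcon
    have := mul_neg_of_pos_of_neg hc (show 1 - s - t < 0 by linarith)
    linarith
  have e : s * ‖u - a‖ ^ 2 + t * ‖u - b‖ ^ 2 = (s + t - 2) * ‖u‖ ^ 2 + s * ‖a‖ ^ 2 + t * ‖b‖ ^ 2 := by
    have h1 : u.re = s * a.re + t * b.re := by rw [hu]; simp
    have h2 : u.im = s * a.im + t * b.im := by rw [hu]; simp
    simp only [D1_nsq, Complex.sub_re, Complex.sub_im]
    rw [h1, h2]; ring
  have h3 : ‖a‖ ^ 2 ≤ (12207 / 10000) ^ 2 := pow_le_pow_left₀ (norm_nonneg _) ha 2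
  have h4 : ‖b‖ ^ 2 ≤ (12207 / 10000) ^ 2 := pow_le_pow_left₀ (norm_nonneg _) hb 2
  have h5 : 1 ≤ ‖u - a‖ ^ 2 := by nlinarith
  have h6 : 1 ≤ ‖u - b‖ ^ 2 := by nlinarith
  have h7 := mul_le_mul_of_nonneg_left h3 hs0
  have h8 := mul_le_mul_of_nonneg_left h4 ht0
  have h9 := mul_le_mul_of_nonneg_left h5 hs0
  have h10 := mul_le_mul_of_nonneg_left h6 ht0
  have h11 : (2 - (s + t)) * ‖u‖ ^ 2 ≤ (s + t) * ((12207 / 10000) ^ 2 - 1) := by nlinarith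
  have h12 : ‖u‖ ^ 2 ≤ (2 - (s + t)) * ‖u‖ ^ 2 := by nlinarith [sq_nonneg ‖u‖]
  have h13 : ‖u‖ ^ 2 ≤ (12207 / 10000) ^ 2 - 1 := by nlinarith
  have := norm_nonneg u
  nlinarith

/-- a foreign point within `1/√3` of the quadrilateral is near the apex -/
theorem d1_near {u x1 x2 x3 q : ℂ} (hQ : QC 0 x1 x2 x3) (n1 : ‖x1‖ ≤ 12207 / 10000) (n2 : ‖x2‖ ≤ 12207 / 10000)
    (n3 : ‖x3‖ ≤ 12207 / 10000) (l12 : ‖x2 - x1‖ ≤ 147 / 100) (l23 : ‖x3 - x2‖ ≤ 147 / 100) (u1 : 1 ≤ ‖u - x1‖)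
    (u2 : 1 ≤ ‖u - x2‖) (u3 : 1 ≤ ‖u - x3‖) (hq : q ∈ Qd 0 x1 x2 x3) (hd : ‖u - q‖ < 1 / √3) : ‖u‖ ≤ 705 / 1000 := by
  by_cases hin : u ∈ Qd 0 x1 x2 x3
  · obtain ⟨a1, a2, a3, a4⟩ := hin
    have e1 : 0 ≤ cr x1 u := by simpa using a1
    have e4 : 0 ≤ cr u x3 := by
      have h : cr (0 - x3) (u - x3) = cr u x3 := by simp [cr]; ring
      rwa [h] at a4
    have c12 : 0 < cr x1 x2 := by simpa using hQ.pab
    have c23 : 0 < cr x2 x3 := by simpa using hQ.bcp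
    rcases le_total 0 (cr u x2) with h | h
    · exact D1_tri c12 n1 n2 u1 u2 h e1 a2
    · refine D1_tri c23 n2 n3 u2 u3 e4 ?_ a3
      have h5 : cr x2 u = - cr u x2 := by simp [cr]; ring
      rw [h5]; linarith
  · obtain ⟨τ, σ, t0, t1, s0, s1, hh⟩ := exit4 hQ hq hin
    set b := q + (τ : ℂ) * (u - q) with hb
    have hdb : ‖u - b‖ < 1 / √3 := by
      have h1 : u - b = ((1 - τ : ℝ) : ℂ) * (u - q) := by rw [hb]; push_cast; ring
      rw [h1, norm_mul, Complex.norm_real, Real.norm_of_nonneg (by linarith)]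
      have := norm_nonneg (u - q)
      nlinarith
    rcases hh with ⟨-, hh⟩ | ⟨-, hh⟩ | ⟨-, hh⟩ | ⟨-, hh⟩
    · exact D1_leg s0 s1 n1 u1 (by rw [hh]; ring) hdb
    · exact (D1_base s0 s1 l12 u1 u2 hh hdb).elim
    · exact (D1_base s0 s1 l23 u2 u3 hh hdb).elim
    · refine D1_leg (σ := 1 - σ) (by linarith) (by linarith) n3 u3 ?_ hdb
      rw [hh]; push_cast; ring

/-! ## the axis bound -/

theorem D1_comb {r m P : ℝ} (h1 : 1 / 2 ≤ r) (h2 : r ≤ 705 / 1000) (h3 : P - 3 / 4 < m)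
    (h4 : P - 502975 / 1000000 < 141 / 100 * m) : r ^ 2 - 2 * r * m + P < 1 := by
  nlinarith [mul_nonneg (sub_nonneg.2 h1) (sub_nonneg.2 h2), mul_nonneg (sub_nonneg.2 h1) (sub_nonneg.2 h4.le),
    mul_nonneg (sub_nonneg.2 h2) (sub_nonneg.2 h3.le)]

theorem D1_zone {X Y x y p q s t r : ℝ} (hr : X ^ 2 + Y ^ 2 = r ^ 2) (r1 : 1 / 2 ≤ r) (r2 : r ≤ 705 / 1000)
    (hpq : p ^ 2 + q ^ 2 ≤ 1) (hst : s ^ 2 + t ^ 2 ≤ 1) (hC : 0 < p * t - q * s) (hA : 0 ≤ X * t - Y * s)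
    (hB : 0 ≤ p * Y - q * X) (m1 : 0 ≤ p * x + q * y) (m2 : 0 ≤ s * x + t * y)
    (a1 : x ^ 2 + y ^ 2 - 3 / 4 < p * x + q * y) (a2 : x ^ 2 + y ^ 2 - 502975 / 1000000 < 141 / 100 * (p * x + q * y))
    (b1 : x ^ 2 + y ^ 2 - 3 / 4 < s * x + t * y) (b2 : x ^ 2 + y ^ 2 - 502975 / 1000000 < 141 / 100 * (s * x + t * y)) :
    (X - x) ^ 2 + (Y - y) ^ 2 < 1 := by
  set A := X * t - Y * s with hAd
  set B := p * Y - q * X with hBd
  set C := p * t - q * s with hCd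
  set m := min (p * x + q * y) (s * x + t * y) with hm
  have hm1 : m ≤ p * x + q * y := min_le_left _ _
  have hm2 : m ≤ s * x + t * y := min_le_right _ _
  have hm0 : 0 ≤ m := le_min m1 m2
  have e1 : C * (X * x + Y * y) = A * (p * x + q * y) + B * (s * x + t * y) := by
    rw [hAd, hBd, hCd]; ring
  have e2 : C ^ 2 * (X ^ 2 + Y ^ 2) = A ^ 2 * (p ^ 2 + q ^ 2) + B ^ 2 * (s ^ 2 + t ^ 2) + 2 * (A * B) * (p * s + q * t) := by
    rw [hAd, hBd, hCd]; ring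
  have hps : p * s + q * t ≤ 1 := by nlinarith [sq_nonneg (p - s), sq_nonneg (q - t)]
  have hr0 : 0 ≤ r := by linarith
  have hAB : 0 ≤ A * B := mul_nonneg hA hB
  have h1 : C * r ≤ A + B := by
    have h2 : (C * r) ^ 2 ≤ (A + B) ^ 2 := by
      rw [mul_pow, ← hr, e2]
      nlinarith [mul_le_mul_of_nonneg_left hpq (sq_nonneg A), mul_le_mul_of_nonneg_left hst (sq_nonneg B),
        mul_le_mul_of_nonneg_left hps hAB]
    exact abs_le_of_sq_le_sq' h2 (by linarith) |>.2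
  have h3 : C * (r * m) ≤ C * (X * x + Y * y) := by
    rw [e1]
    have h4 := mul_le_mul_of_nonneg_right h1 hm0
    have h5 := mul_le_mul_of_nonneg_left hm1 hA
    have h6 := mul_le_mul_of_nonneg_left hm2 hB
    nlinarith
  have h7 : r * m ≤ X * x + Y * y := le_of_mul_le_mul_left h3 hC
  have h8 : r ^ 2 - 2 * r * m + (x ^ 2 + y ^ 2) < 1 := by
    apply D1_comb r1 r2
    · exact lt_min a1 b1
    · rcases min_choice (p * x + q * y) (s * x + t * y) with h | h <;> rw [hm, h]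
      · exact a2
      · exact b2
  nlinarith

/-- right half, low directions: `x1` is too near -/
theorem D1_low {X Y x y r a b : ℝ} (hr : X ^ 2 + Y ^ 2 = r ^ 2) (r1 : 1 / 2 ≤ r) (r2 : r ≤ 705 / 1000) (hX : 0 ≤ X)
    (hY : -(1 / 5) ≤ Y) (hXY : 3 * Y ≤ 4 * X) (hx : x = √3 / 2 + a) (hy : y = 1 / 2 + b)
    (hn : x ^ 2 + y ^ 2 ≤ (12207 / 10000) ^ 2) (h47 : a ^ 2 + b ^ 2 ≤ (47 / 100) ^ 2) (hup : b ≤ 8 / 100)
    (hdn : -(35 / 100) ≤ b) (h60 : 1 / 2 * a + √3 / 2 * b ≤ 13 / 100) : (X - x) ^ 2 + (Y - y) ^ 2 < 1 := by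
  have s3 : √3 ^ 2 = 3 := Real.sq_sqrt (by norm_num)
  have s0 : (17320 : ℝ) / 10000 ≤ √3 := by
    rw [show (17320 : ℝ) / 10000 = √((17320 / 10000) ^ 2) by rw [Real.sqrt_sq (by norm_num)]]
    exact Real.sqrt_le_sqrt (by norm_num)
  have s1 : √3 ≤ (17321 : ℝ) / 10000 := by
    rw [show (17321 : ℝ) / 10000 = √((17321 / 10000) ^ 2) by rw [Real.sqrt_sq (by norm_num)]]
    exact Real.sqrt_le_sqrt (by norm_num)
  have ha : -(47 / 100) ≤ a := by nlinarith [sq_nonneg b]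
  have x0 : 39 / 100 ≤ x := by rw [hx]; linarith
  have y0 : 15 / 100 ≤ y := by rw [hy]; linarith
  have y1 : y ≤ 58 / 100 := by rw [hy]; linarith
  -- n60: x/2 + (√3/2) y ≤ .13 + √3/2, with rational coefficients
  have k : 1 / 2 * x + 866 / 1000 * y ≤ 99606 / 100000 := by
    have h1 : 1 / 2 * x + √3 / 2 * y ≤ 13 / 100 + √3 / 2 := by rw [hx, hy]; nlinarith
    nlinarith
  have sy : y ^ 2 ≤ 73 / 100 * y - 87 / 1000 := by nlinarith [mul_nonneg (sub_nonneg.2 y0) (sub_nonneg.2 y1)]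
  have hrY : 21 / 4 * Y ^ 2 ≤ X ^ 2 ∨ 0 ≤ Y := by
    rcases le_total 0 Y with h | h
    · exact Or.inr h
    · left; nlinarith
  have hB : 0 ≤ 9163 / 10000 * Y - (-(4 / 10)) * X := by
    rcases hrY with h | h
    · by_contra hc
      push Not at hc
      have h2 : 0 < -Y := by nlinarith
      have h3 : 4 / 10 * X < 9163 / 10000 * (-Y) := by linarith
      have h4 : (4 / 10 * X) ^ 2 < (9163 / 10000 * (-Y)) ^ 2 := pow_lt_pow_left₀ h3 (by positivity) (by norm_num)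
      nlinarith
    · nlinarith
  refine D1_zone (p := 9163 / 10000) (q := -(4 / 10)) (s := 6 / 10) (t := 8 / 10) hr r1 r2 (by norm_num) (by norm_num)
    (by norm_num) (by linarith) hB (by linarith) (by linarith) ?_ ?_ ?_ ?_
  · -- I-
    rcases le_total x (1047 / 1000) with h | h
    · nlinarith [mul_nonneg (sub_nonneg.2 x0) (sub_nonneg.2 h)]
    · nlinarith
  · rcases le_total x (1012 / 1000) with h | h
    · nlinarith [mul_nonneg (sub_nonneg.2 x0) (sub_nonneg.2 h)]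
    · nlinarith
  · rcases le_total x (1034 / 1000) with h | h
    · nlinarith [mul_nonneg (sub_nonneg.2 x0) (sub_nonneg.2 h)]
    · nlinarith
  · rcases le_total x (967 / 1000) with h | h
    · nlinarith [mul_nonneg (sub_nonneg.2 x0) (sub_nonneg.2 h)]
    · nlinarith

/-- right half, high directions: `x2` is too near -/
theorem D1_high {X Y x y r b : ℝ} (hr : X ^ 2 + Y ^ 2 = r ^ 2) (r1 : 1 / 2 ≤ r) (r2 : r ≤ 705 / 1000) (hX : 0 ≤ X)
    (hXY : 4 * X ≤ 3 * Y) (hy : y = 1 + b) (h47 : x ^ 2 + b ^ 2 ≤ (47 / 100) ^ 2) (hup : b ≤ 8 / 100)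
    (hdn : -(35 / 100) ≤ b) (h120 : -(1 / 2) * x + √3 / 2 * b ≤ 13 / 100) : (X - x) ^ 2 + (Y - y) ^ 2 < 1 := by
  have s0 : (17320 : ℝ) / 10000 ≤ √3 := by
    rw [show (17320 : ℝ) / 10000 = √((17320 / 10000) ^ 2) by rw [Real.sqrt_sq (by norm_num)]]
    exact Real.sqrt_le_sqrt (by norm_num)
  have s1 : √3 ≤ (17321 : ℝ) / 10000 := by
    rw [show (17321 : ℝ) / 10000 = √((17321 / 10000) ^ 2) by rw [Real.sqrt_sq (by norm_num)]]
    exact Real.sqrt_le_sqrt (by norm_num)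
  have x0 : -(47 / 100) ≤ x := by nlinarith [sq_nonneg b]
  have x1 : x ≤ 47 / 100 := by nlinarith [sq_nonneg b]
  have y0 : 65 / 100 ≤ y := by rw [hy]; linarith
  have y1 : y ≤ 108 / 100 := by rw [hy]; linarith
  have k : -(1 / 2) * x + 866 / 1000 * y ≤ 99606 / 100000 := by
    have h1 : -(1 / 2) * x + √3 / 2 * y ≤ 13 / 100 + √3 / 2 := by rw [hy]; nlinarith
    nlinarith
  have sy : y ^ 2 ≤ 173 / 100 * y - 702 / 1000 := by nlinarith [mul_nonneg (sub_nonneg.2 y0) (sub_nonneg.2 y1)]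
  have sx : x ^ 2 ≤ 2209 / 10000 := by nlinarith [sq_nonneg b]
  refine D1_zone (p := 6 / 10) (q := 8 / 10) (s := 0) (t := 1) hr r1 r2 (by norm_num) (by norm_num)
    (by norm_num) (by linarith) (by linarith) (by linarith) (by linarith) ?_ ?_ ?_ ?_
  · nlinarith
  · nlinarith
  · nlinarith
  · nlinarith

/-- the frames `x1, x2, x3` are near `d1, d2, d3` -/
structure D1K (v : ℂ) : Prop where
  nrm : ‖v‖ ≤ 47 / 100
  up : v.im ≤ 8 / 100
  dn : -(35 / 100) ≤ v.im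
  n120 : -(1 / 2) * v.re + √3 / 2 * v.im ≤ 13 / 100
  n60 : 1 / 2 * v.re + √3 / 2 * v.im ≤ 13 / 100

theorem d1_axis {u x1 x2 x3 : ℂ} (k1 : D1K (x1 - d1)) (k2 : D1K (x2 - d2)) (k3 : D1K (x3 - d3))
    (n1 : ‖x1‖ ≤ 12207 / 10000) (n3 : ‖x3‖ ≤ 12207 / 10000) (u1 : 1 ≤ ‖u - x1‖) (u2 : 1 ≤ ‖u - x2‖)
    (u3 : 1 ≤ ‖u - x3‖) (h1 : 1 / 2 ≤ ‖u‖) (h2 : ‖u‖ ≤ 705 / 1000) : u.im ≤ -(1 / 5) := by
  by_contra hcon
  push Not at hcon
  have hr := (D1_nsq u).symm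
  have q1 : ‖x1‖ ^ 2 ≤ (12207 / 10000) ^ 2 := pow_le_pow_left₀ (norm_nonneg _) n1 2
  have q3 : ‖x3‖ ^ 2 ≤ (12207 / 10000) ^ 2 := pow_le_pow_left₀ (norm_nonneg _) n3 2
  rw [D1_nsq] at q1 q3
  have w1 : 1 ≤ (u.re - x1.re) ^ 2 + (u.im - x1.im) ^ 2 := by
    have := D1_nsq (u - x1); simp only [Complex.sub_re, Complex.sub_im] at this; nlinarith
  have w2 : 1 ≤ (u.re - x2.re) ^ 2 + (u.im - x2.im) ^ 2 := by
    have := D1_nsq (u - x2); simp only [Complex.sub_re, Complex.sub_im] at this; nlinarith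
  have w3 : 1 ≤ (u.re - x3.re) ^ 2 + (u.im - x3.im) ^ 2 := by
    have := D1_nsq (u - x3); simp only [Complex.sub_re, Complex.sub_im] at this; nlinarith
  have sq47 : ∀ v : ℂ, ‖v‖ ≤ 47 / 100 → v.re ^ 2 + v.im ^ 2 ≤ (47 / 100) ^ 2 := by
    intro v hv
    rw [← D1_nsq]
    exact pow_le_pow_left₀ (norm_nonneg _) hv 2
  have f1 := sq47 _ k1.nrm
  have f2 := sq47 _ k2.nrm
  have f3 := sq47 _ k3.nrm
  have up1 := k1.up
  have up2 := k2.up
  have up3 := k3.up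
  have dn1 := k1.dn
  have dn2 := k2.dn
  have dn3 := k3.dn
  have a1 := k1.n60
  have a2 := k2.n60
  have b2 := k2.n120
  have b3 := k3.n120
  simp only [Complex.sub_re, Complex.sub_im, d1, d2, d3] at f1 f2 f3 up1 up2 up3 dn1 dn2 dn3 a1 a2 b2 b3
  rcases le_total 0 u.re with hX | hX
  · rcases le_total (3 * u.im) (4 * u.re) with h | h
    · have := D1_low (X := u.re) (Y := u.im) (x := x1.re) (y := x1.im) (r := ‖u‖) (a := x1.re - √3 / 2) (b := x1.im - 1 / 2)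
        hr h1 h2 hX hcon.le h (by ring) (by ring) q1 f1 up1 dn1 a1
      linarith
    · have := D1_high (X := u.re) (Y := u.im) (x := x2.re) (y := x2.im) (r := ‖u‖) (b := x2.im - 1)
        hr h1 h2 hX h (by ring) (by simpa using f2) up2 dn2 (by simpa using b2)
      linarith
  · rcases le_total (3 * u.im) (4 * -u.re) with h | h
    · have := D1_low (X := -u.re) (Y := u.im) (x := -x3.re) (y := x3.im) (r := ‖u‖) (a := -x3.re - √3 / 2) (b := x3.im - 1 / 2)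
        (by rw [← hr]; ring) h1 h2 (by linarith) hcon.le h (by ring) (by ring) (by nlinarith) (by nlinarith) up3 dn3 (by linarith)
      nlinarith
    · have := D1_high (X := -u.re) (Y := u.im) (x := -x2.re) (y := x2.im) (r := ‖u‖) (b := x2.im - 1)
        (by rw [← hr]; ring) h1 h2 (by linarith) h (by ring) (by simpa using f2) up2 dn2
        (by simp at a2; linarith)
      nlinarith

end Pool.Agent.H63.P6
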