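import Pool.Agent.H63.P6.Loc

/-!
# T5, part A: the local induction (2)

`good`: at every site `p ≠ 0` of the quadrant, `V (disp x p) ≤ En x N p` and the star of `p` is a `Star`.
`apex`: `Φ ≤ E(s1) + E(s3) - E(s2)` at the apex.
-/

set_option autoImplicit false

open Pool.Agent.H20.AL Pool.Agent.H16.T3 Finset

noncomputable section

namespace Pool.Agent.H63.P6

/-- the star of the site `p` -/
def StarAt (el : ℝ) (x : ℤ × ℤ → ℂ) (p : ℤ × ℤ) : Prop :=
  Star el (x (p + (1, 0)) - x p) (x (p + (1, 1)) - x p) (x (p + (0, 1)) - x p)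

theorem Ind_fan (x : ℤ × ℤ → ℂ) (p : ℤ × ℤ) :
    fan x p = fanw (x (p + (1, 0)) - x p) (x (p + (1, 1)) - x p) (x (p + (0, 1)) - x p) := by
  unfold fan fanw exc
  ring

variable {V : ℂ → ℝ} {κ el : ℝ} {x : ℤ × ℤ → ℂ} {N : ℤ}

theorem Ind_nz {a b : ℤ} (h : (a, b) ≠ (0 : ℤ × ℤ)) (ha : 0 ≤ a) (hb : 0 ≤ b) : 0 < a + b := by
  by_contra h1
  apply h
  have h2 : a = 0 := by omega
  have h3 : b = 0 := by omega
  rw [h2, h3]
  rfl

theorem Ind_sep (hL : Loc V κ el x N) {a b c d : ℤ} (ha : 0 ≤ a) (hb : 0 ≤ b) (hc : 0 ≤ c) (hd : 0 ≤ d)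
    (h1 : 0 < a + b) (h2 : 0 < c + d) (h3 : a ≠ c ∨ b ≠ d) : 1 ≤ ‖x (a, b) - x (c, d)‖ := by
  apply hL.sep
  · exact ⟨ha, hb⟩
  · exact ⟨hc, hd⟩
  · intro h
    have h4 := congrArg Prod.fst h
    have h5 := congrArg Prod.snd h
    simp at h4 h5
    omega
  · intro h
    have h4 := congrArg Prod.fst h
    have h5 := congrArg Prod.snd h
    simp at h4 h5
    omega
  · intro h
    have h4 := congrArg Prod.fst h
    have h5 := congrArg Prod.snd h
    simp at h4 h5
    omega

/-- fan of a cell with a star -/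
theorem Ind_cell (hL : Loc V κ el x N) {a b : ℤ} (ha : 0 ≤ a) (hb : 0 ≤ b) (h0 : 0 < a + b) (hS : StarAt el x (a, b))
    (hS1 : StarAt el x (a + 1, b)) (hS3 : StarAt el x (a, b + 1)) :
    κ * ((‖x (a + 1, b) - x (a, b)‖ - 1) + (‖x (a + 1, b + 1) - x (a, b + 1)‖ - 1) + (‖x (a, b + 1) - x (a, b)‖ - 1)) ≤
      fan x (a, b) ∧
    κ * ((‖x (a, b + 1) - x (a, b)‖ - 1) + (‖x (a + 1, b + 1) - x (a + 1, b)‖ - 1) + (‖x (a + 1, b) - x (a, b)‖ - 1)) ≤
      fan x (a, b) := by
  have hd := hL.dpp
  have e1 : ((a, b) + (1, 0) : ℤ × ℤ) = (a + 1, b) := by simp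
  have e2 : ((a, b) + (1, 1) : ℤ × ℤ) = (a + 1, b + 1) := by simp
  have e3 : ((a, b) + (0, 1) : ℤ × ℤ) = (a, b + 1) := by simp
  have m12 : ‖x (a + 1, b + 1) - x (a + 1, b)‖ < el := by
    have := hS1.l3
    simpa using this
  have m23 : ‖x (a + 1, b + 1) - x (a, b + 1)‖ < el := by
    have := hS3.l1
    simpa using this
  unfold StarAt at hS
  rw [e1, e2, e3] at hS
  have n1 := Ind_sep hL (a := a + 1) (b := b) (c := a) (d := b) (by omega) hb ha hb (by omega) h0 (by omega)
  have n2 := Ind_sep hL (a := a + 1) (b := b + 1) (c := a) (d := b) (by omega) (by omega) ha hb (by omega) h0 (by omega)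
  have n3 := Ind_sep hL (a := a) (b := b + 1) (c := a) (d := b) ha (by omega) ha hb (by omega) h0 (by omega)
  have n12 := Ind_sep hL (a := a + 1) (b := b + 1) (c := a + 1) (d := b) (by omega) (by omega) (by omega) hb
    (by omega) (by omega) (by omega)
  have n23 := Ind_sep hL (a := a + 1) (b := b + 1) (c := a) (d := b + 1) (by omega) (by omega) ha (by omega)
    (by omega) (by omega) (by omega)
  have r12 : (x (a + 1, b + 1) - x (a, b)) - (x (a + 1, b) - x (a, b)) = x (a + 1, b + 1) - x (a + 1, b) := by ring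
  have r23 : (x (a, b + 1) - x (a, b)) - (x (a + 1, b + 1) - x (a, b)) = -(x (a + 1, b + 1) - x (a, b + 1)) := by ring
  have k1 := hd.exc (x (a + 1, b) - x (a, b)) (x (a + 1, b + 1) - x (a, b)) n1 n2 (by rw [r12]; exact n12) hS.l1 hS.l2
    (by rw [r12]; exact m12) hS.c12
  have k2 := hd.exc (x (a + 1, b + 1) - x (a, b)) (x (a, b + 1) - x (a, b)) n2 n3 (by rw [r23, norm_neg]; exact n23)
    hS.l2 hS.l3 (by rw [r23, norm_neg]; exact m23) hS.c23
  rw [r12] at k1
  rw [r23, norm_neg] at k2
  have hk := hd.kap.le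
  have f : fan x (a, b) = (cr (x (a + 1, b) - x (a, b)) (x (a + 1, b + 1) - x (a, b)) / √3 - 1 / 2) +
      (cr (x (a + 1, b + 1) - x (a, b)) (x (a, b + 1) - x (a, b)) / √3 - 1 / 2) := by
    unfold fan exc
    rw [e1, e2, e3]
  rw [f]
  constructor
  · have : 0 ≤ κ * ((‖x (a + 1, b + 1) - x (a, b)‖ - 1) + (‖x (a + 1, b + 1) - x (a, b)‖ - 1) +
        (‖x (a + 1, b + 1) - x (a + 1, b)‖ - 1)) := mul_nonneg hk (by linarith)
    linarith
  · have : 0 ≤ κ * ((‖x (a + 1, b + 1) - x (a, b)‖ - 1) + (‖x (a + 1, b + 1) - x (a, b)‖ - 1) +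
        (‖x (a + 1, b + 1) - x (a, b + 1)‖ - 1)) := mul_nonneg hk (by linarith)
    linarith

/-- the strip in direction `d1` -/
theorem Ind_strip1 (hL : Loc V κ el x N) {a b : ℤ} (ha : 0 ≤ a) (hb : 0 ≤ b) (h0 : 0 < a + b) (hbN : b < N)
    (hS : ∀ c : ℤ, a ≤ c → StarAt el x (c, b)) (hT : ∀ c : ℤ, a ≤ c → StarAt el x (c, b + 1)) :
    sig κ d1 (disp x (a, b)) (disp x (a, b + 1)) ‖x (a, b + 1) - x (a, b)‖ ≤ En x N (a, b) - En x N (a, b + 1) := by
  rw [Loc_En_row x N a b hbN]
  rcases lt_or_ge a N with haN | haN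
  · rw [Loc_Ico a N haN.le]
    have hst : ∀ c d : ℤ, st (c, d) = st (a, d) + ((c - a : ℤ) : ℂ) * d1 := by
      intro c d
      simp only [st]
      push_cast
      ring
    have hend : ((N - a).toNat : ℤ) = N - a := Int.toNat_of_nonneg (by omega)
    have hendC : (((N - a).toNat : ℕ) : ℂ) = ((N - a : ℤ) : ℂ) := by
      rw [← hend]; norm_cast
    have hM : 0 < (N - a).toNat := by omega
    have key := Loc_row hL.dpp.kap.le Loc_norm_d1 (N - a).toNat hM (fun k => x (a + k, b)) (fun k => x (a + k, b + 1))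
      (fun k => fan x (a + k, b)) ‖x (a, b + 1) - x (a, b)‖ (st (a, b)) (disp x (a, b)) (disp x (a, b + 1)) (st (a, b + 1))
      (by simp only [Nat.cast_zero, add_zero]; exact Loc_x _ _)
      (by
        change x _ = _
        rw [hend, hL.far _ ⟨by simp; omega, hb⟩ (Or.inl (by simp)), hst, hendC]
        congr 3
        ring)
      (by simp only [Nat.cast_zero, add_zero]; exact Loc_x _ _)
      (by
        change x _ = _
        rw [hend, hL.far _ ⟨by simp; omega, by simp; omega⟩ (Or.inl (by simp)), hst, hendC]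
        congr 3
        ring)
      (by
        intro k _
        exact Ind_sep hL (by omega) hb (by omega) hb (by omega) (by omega) (by omega))
      (by
        intro k _
        exact Ind_sep hL (by omega) (by omega) (by omega) (by omega) (by omega) (by omega) (by omega))
      (by
        intro k _
        have h1 := (Ind_cell hL (a := a + k) (b := b) (by omega) hb (by omega) (hS _ (by omega))
          (hS _ (by omega)) (hT _ (by omega))).1
        have h3 := Ind_sep hL (a := a + k) (b := b + 1) (c := a + k) (d := b) (by omega) (by omega) (by omega) hb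
          (by omega) (by omega) (by omega)
        have e : a + ((k + 1 : ℕ) : ℤ) = a + k + 1 := by push_cast; ring
        simp only [e]
        refine le_trans (mul_le_mul_of_nonneg_left ?_ hL.dpp.kap.le) h1
        linarith)
      (by
        have h1 := (Ind_cell hL (a := a) (b := b) (by omega) hb (by omega) (hS _ (by omega))
          (hS _ (by omega)) (hT _ (by omega))).1
        simpa using h1)
    exact key
  · rw [Ico_eq_empty (by omega), sum_empty]
    have h1 : disp x (a, b) = 0 := by
      unfold disp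
      rw [hL.far (a, b) ⟨ha, hb⟩ (Or.inl haN), sub_self]
    have h2 : disp x (a, b + 1) = 0 := by
      unfold disp
      rw [hL.far (a, b + 1) ⟨ha, by simp; omega⟩ (Or.inl haN), sub_self]
    have h3 : x (a, b + 1) - x (a, b) = d3 := by
      rw [hL.far (a, b) ⟨ha, hb⟩ (Or.inl haN), hL.far (a, b + 1) ⟨ha, by simp; omega⟩ (Or.inl haN)]
      simp only [st]
      push_cast
      ring
    rw [h1, h2, h3, Loc_norm_d3]
    simp [sig, dt]

/-- the strip in direction `d3` -/
theorem Ind_strip3 (hL : Loc V κ el x N) {a b : ℤ} (ha : 0 ≤ a) (hb : 0 ≤ b) (h0 : 0 < a + b) (haN : a < N)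
    (hS : ∀ c : ℤ, b ≤ c → StarAt el x (a, c)) (hT : ∀ c : ℤ, b ≤ c → StarAt el x (a + 1, c)) :
    sig κ d3 (disp x (a, b)) (disp x (a + 1, b)) ‖x (a + 1, b) - x (a, b)‖ ≤ En x N (a, b) - En x N (a + 1, b) := by
  rw [Loc_En_col x N a b haN]
  rcases lt_or_ge b N with hbN | hbN
  · rw [Loc_Ico b N hbN.le]
    have hst : ∀ c d : ℤ, st (c, d) = st (c, b) + ((d - b : ℤ) : ℂ) * d3 := by
      intro c d
      simp only [st]
      push_cast
      ring
    have hend : ((N - b).toNat : ℤ) = N - b := Int.toNat_of_nonneg (by omega)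
    have hendC : (((N - b).toNat : ℕ) : ℂ) = ((N - b : ℤ) : ℂ) := by
      rw [← hend]; norm_cast
    have hM : 0 < (N - b).toNat := by omega
    have key := Loc_row hL.dpp.kap.le Loc_norm_d3 (N - b).toNat hM (fun k => x (a, b + k)) (fun k => x (a + 1, b + k))
      (fun k => fan x (a, b + k)) ‖x (a + 1, b) - x (a, b)‖ (st (a, b)) (disp x (a, b)) (disp x (a + 1, b)) (st (a + 1, b))
      (by simp only [Nat.cast_zero, add_zero]; exact Loc_x _ _)
      (by
        change x _ = _
        rw [hend, hL.far _ ⟨ha, by simp; omega⟩ (Or.inr (by simp)), hst, hendC]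
        congr 3
        ring)
      (by simp only [Nat.cast_zero, add_zero]; exact Loc_x _ _)
      (by
        change x _ = _
        rw [hend, hL.far _ ⟨by simp; omega, by simp; omega⟩ (Or.inr (by simp)), hst, hendC]
        congr 3
        ring)
      (by
        intro k _
        exact Ind_sep hL ha (by omega) ha (by omega) (by omega) (by omega) (by omega))
      (by
        intro k _
        exact Ind_sep hL (by omega) (by omega) (by omega) (by omega) (by omega) (by omega) (by omega))
      (by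
        intro k _
        have h1 := (Ind_cell hL (a := a) (b := b + k) ha (by omega) (by omega) (hS _ (by omega))
          (hT _ (by omega)) (hS _ (by omega))).2
        have h3 := Ind_sep hL (a := a + 1) (b := b + k) (c := a) (d := b + k) (by omega) (by omega) ha (by omega)
          (by omega) (by omega) (by omega)
        have e : b + ((k + 1 : ℕ) : ℤ) = b + k + 1 := by push_cast; ring
        simp only [e]
        refine le_trans (mul_le_mul_of_nonneg_left ?_ hL.dpp.kap.le) h1
        linarith)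
      (by
        have h1 := (Ind_cell hL (a := a) (b := b) ha (by omega) (by omega) (hS _ (by omega))
          (hT _ (by omega)) (hS _ (by omega))).2
        simpa using h1)
    exact key
  · rw [Ico_eq_empty (by omega), sum_empty]
    have h1 : disp x (a, b) = 0 := by
      unfold disp
      rw [hL.far (a, b) ⟨ha, hb⟩ (Or.inr hbN), sub_self]
    have h2 : disp x (a + 1, b) = 0 := by
      unfold disp
      rw [hL.far (a + 1, b) ⟨by simp; omega, hb⟩ (Or.inr hbN), sub_self]
    have h3 : x (a + 1, b) - x (a, b) = d1 := by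
      rw [hL.far (a, b) ⟨ha, hb⟩ (Or.inr hbN), hL.far (a + 1, b) ⟨by simp; omega, hb⟩ (Or.inr hbN)]
      simp only [st]
      push_cast
      ring
    rw [h1, h2, h3, Loc_norm_d1]
    simp [sig, dt]

/-- `Φ ≤ E(s1) + E(s3) - E(s2)` -/
theorem Ind_Phi (hL : Loc V κ el x N) {a b : ℤ} (ha : 0 ≤ a) (hb : 0 ≤ b) (haN : a < N) (hbN : b < N)
    (h1 : V (disp x (a + 1, b)) ≤ En x N (a + 1, b)) (h2 : V (disp x (a + 1, b + 1)) ≤ En x N (a + 1, b + 1))
    (h3 : V (disp x (a, b + 1)) ≤ En x N (a, b + 1))
    (hS : ∀ c e : ℤ, a ≤ c → b ≤ e → a + b < c + e → StarAt el x (c, e)) :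
    Phi V κ (disp x (a + 1, b)) (disp x (a + 1, b + 1)) (disp x (a, b + 1)) ≤
      En x N (a + 1, b) + En x N (a, b + 1) - En x N (a + 1, b + 1) := by
  have e1 : ‖(d2 + disp x (a + 1, b + 1)) - (d1 + disp x (a + 1, b))‖ = ‖x (a + 1, b + 1) - x (a + 1, b)‖ := by
    congr 1
    have h : st (a + 1, b + 1) = st (a + 1, b) + (d2 - d1) := by
      rw [← Loc_d2]
      simp only [st]
      push_cast
      ring
    unfold disp
    rw [h]
    ring
  have e3 : ‖(d3 + disp x (a, b + 1)) - (d2 + disp x (a + 1, b + 1))‖ = ‖x (a + 1, b + 1) - x (a, b + 1)‖ := by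
    rw [← norm_neg]
    congr 1
    have h : st (a + 1, b + 1) = st (a, b + 1) + (d2 - d3) := by
      rw [← Loc_d2]
      simp only [st]
      push_cast
      ring
    unfold disp
    rw [h]
    ring
  have s1 := Ind_strip1 hL (a := a + 1) (b := b) (by omega) hb (by omega) hbN
    (fun c h => hS _ _ (by omega) le_rfl (by omega)) (fun c h => hS _ _ (by omega) (by omega) (by omega))
  have s3 := Ind_strip3 hL (a := a) (b := b + 1) ha (by omega) (by omega) haN
    (fun c h => hS _ _ le_rfl (by omega) (by omega)) (fun c h => hS _ _ (by omega) (by omega) (by omega))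
  unfold Phi
  rw [e1, e3]
  refine max_le ?_ (max_le ?_ ?_)
  · linarith
  · linarith
  · linarith

/-- the exact star -/
theorem Ind_star0 (h : 1 < el) : Star el d1 d2 d3 := by
  have hd3 : d2 - d1 = d3 := by rw [← Loc_d2]; ring
  have hd1 : d3 - d2 = -d1 := by rw [← Loc_d2]; ring
  have n1 := Loc_norm_d1
  have n2 := Loc_norm_d2
  have n3 := Loc_norm_d3
  have tt : ∀ d : ℂ, ‖d‖ = 1 → Turn d d := by
    intro d hd
    unfold Turn
    rw [cr_self, dt_self, hd]
    norm_num
  have h3 : 0 < √3 := Real.sqrt_pos.2 (by norm_num)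
  refine ⟨by rw [n1]; exact h, by rw [n2]; exact h, by rw [n3]; exact h, tt _ n1, tt _ n2, tt _ n3, ?_, ?_,
    ?_, ?_, ?_, ?_, ?_, ?_⟩
  · simp only [cr, d1, d2]; linarith
  · simp only [cr, d2, d3]; linarith
  · left; rw [n1]; norm_num
  · left; rw [n2]; norm_num
  · left; rw [n1]; norm_num
  · left; rw [n2]; norm_num
  · left; rw [n2]; norm_num
  · left; rw [n3]; norm_num

theorem Ind_main (hL : Loc V κ el x N) (n : ℕ) : ∀ a b : ℤ, 0 ≤ a → 0 ≤ b → 0 < a + b →
    (N - a).toNat + (N - b).toNat ≤ n → V (disp x (a, b)) ≤ En x N (a, b) ∧ StarAt el x (a, b) := by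
  have hfar : ∀ a b : ℤ, 0 ≤ a → 0 ≤ b → (N ≤ a ∨ N ≤ b) →
      V (disp x (a, b)) ≤ En x N (a, b) ∧ StarAt el x (a, b) := by
    intro a b ha hb hab
    have e0 := hL.far (a, b) ⟨ha, hb⟩ hab
    have e1 := hL.far (a + 1, b) ⟨by simp; omega, hb⟩ (by simp only; omega)
    have e2 := hL.far (a + 1, b + 1) ⟨by simp; omega, by simp; omega⟩ (by simp only; omega)
    have e3 := hL.far (a, b + 1) ⟨ha, by simp; omega⟩ (by simp only; omega)
    constructor
    · have h1 : disp x (a, b) = 0 := by unfold disp; rw [e0, sub_self]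
      have h2 : En x N (a, b) = 0 := by
        unfold En
        rcases hab with h | h
        · simp only
          rw [Ico_eq_empty (by omega), sum_empty]
        · simp only
          apply sum_eq_zero
          intro c _
          rw [Ico_eq_empty (by omega), sum_empty]
      rw [h1, h2]
      exact hL.dpp.zero
    · have f1 : x ((a, b) + (1, 0)) - x (a, b) = d1 := by
        have : ((a, b) + (1, 0) : ℤ × ℤ) = (a + 1, b) := by simp
        rw [this, e1, e0]
        simp only [st]
        push_cast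
        ring
      have f2 : x ((a, b) + (1, 1)) - x (a, b) = d2 := by
        have : ((a, b) + (1, 1) : ℤ × ℤ) = (a + 1, b + 1) := by simp
        rw [this, e2, e0, ← Loc_d2]
        simp only [st]
        push_cast
        ring
      have f3 : x ((a, b) + (0, 1)) - x (a, b) = d3 := by
        have : ((a, b) + (0, 1) : ℤ × ℤ) = (a, b + 1) := by simp
        rw [this, e3, e0]
        simp only [st]
        push_cast
        ring
      unfold StarAt
      rw [f1, f2, f3]
      exact Ind_star0 hL.dpp.el1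
  induction n with
  | zero =>
    intro a b ha hb h0 hn
    exact hfar a b ha hb (by omega)
  | succ n ih =>
    intro a b ha hb h0 hn
    rcases lt_or_ge a N with haN | haN
    swap
    · exact hfar a b ha hb (Or.inl haN)
    rcases lt_or_ge b N with hbN | hbN
    swap
    · exact hfar a b ha hb (Or.inr hbN)
    have g : ∀ c e : ℤ, a ≤ c → b ≤ e → a + b < c + e → V (disp x (c, e)) ≤ En x N (c, e) ∧ StarAt el x (c, e) := by
      intro c e h1 h2 h3
      by_cases h : N ≤ c ∨ N ≤ e
      · exact hfar c e (by omega) (by omega) h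
      · exact ih c e (by omega) (by omega) (by omega) (by omega)
    have g1 := g (a + 1) b (by omega) (by omega) (by omega)
    have g2 := g (a + 1) (b + 1) (by omega) (by omega) (by omega)
    have g3 := g a (b + 1) (by omega) (by omega) (by omega)
    have hPhi := Ind_Phi hL ha hb haN hbN g1.1 g2.1 g3.1 (fun c e h1 h2 h3 => (g c e h1 h2 h3).2)
    have hE := Loc_En x N a b haN hbN
    have nn : ∀ c e : ℤ, 0 ≤ c → 0 ≤ e → 0 < c + e → (0 : ℤ × ℤ) ≤ (c, e) ∧ (c, e) ≠ (0 : ℤ × ℤ) := by
      intro c e h1 h2 h3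
      refine ⟨⟨h1, h2⟩, ?_⟩
      intro h
      have h4 := congrArg Prod.fst h
      have h5 := congrArg Prod.snd h
      simp at h4 h5
      omega
    have en : ∀ c e : ℤ, 0 ≤ c → 0 ≤ e → 0 < c + e → En x N (c, e) ≤ 1 / 3 := fun c e h1 h2 h3 =>
      hL.en (c, e) (nn c e h1 h2 h3).1 (nn c e h1 h2 h3).2
    have r1 : d1 + disp x (a + 1, b) - disp x (a, b) = x (a + 1, b) - x (a, b) := by
      unfold disp
      simp only [st]
      push_cast
      ring
    have r2 : d2 + disp x (a + 1, b + 1) - disp x (a, b) = x (a + 1, b + 1) - x (a, b) := by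
      unfold disp
      rw [← Loc_d2]
      simp only [st]
      push_cast
      ring
    have r3 : d3 + disp x (a, b + 1) - disp x (a, b) = x (a, b + 1) - x (a, b) := by
      unfold disp
      simp only [st]
      push_cast
      ring
    have r12 : (d2 + disp x (a + 1, b + 1)) - (d1 + disp x (a + 1, b)) = x (a + 1, b + 1) - x (a + 1, b) := by
      unfold disp
      rw [← Loc_d2]
      simp only [st]
      push_cast
      ring
    have r23 : (d3 + disp x (a, b + 1)) - (d2 + disp x (a + 1, b + 1)) = x (a, b + 1) - x (a + 1, b + 1) := by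
      unfold disp
      rw [← Loc_d2]
      simp only [st]
      push_cast
      ring
    have e1 : ((a, b) + (1, 0) : ℤ × ℤ) = (a + 1, b) := by simp
    have e2 : ((a, b) + (1, 1) : ℤ × ℤ) = (a + 1, b + 1) := by simp
    have e3 : ((a, b) + (0, 1) : ℤ × ℤ) = (a, b + 1) := by simp
    have key := hL.dpp.dp (disp x (a, b)) (disp x (a + 1, b)) (disp x (a + 1, b + 1)) (disp x (a, b + 1)) (En x N (a, b))
      (hL.near _ (nn a b ha hb h0).1 (nn a b ha hb h0).2)
      (g1.1.trans (en _ _ (by omega) (by omega) (by omega))) (g2.1.trans (en _ _ (by omega) (by omega) (by omega)))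
      (g3.1.trans (en _ _ (by omega) (by omega) (by omega)))
      (by rw [r1]; exact Ind_sep hL (by omega) hb ha hb (by omega) h0 (by omega))
      (by rw [r2]; exact Ind_sep hL (by omega) (by omega) ha hb (by omega) h0 (by omega))
      (by rw [r3]; exact Ind_sep hL ha (by omega) ha hb (by omega) h0 (by omega))
      (by rw [r12]; exact Ind_sep hL (by omega) (by omega) (by omega) hb (by omega) (by omega) (by omega))
      (by rw [r23]; exact Ind_sep hL ha (by omega) (by omega) (by omega) (by omega) (by omega) (by omega))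
      (by
        rw [r1, r2, r3]
        have hf := Ind_fan x (a, b)
        rw [e1, e2, e3] at hf
        rw [hE, hf]
        linarith)
      (en a b ha hb h0)
    rw [r1, r2, r3] at key
    refine ⟨key.1, ?_⟩
    unfold StarAt
    rw [e1, e2, e3]
    exact key.2

/-- every site of the quadrant except the apex is good -/
theorem good (hL : Loc V κ el x N) (p : ℤ × ℤ) (hp : 0 ≤ p) (h0 : p ≠ 0) :
    V (disp x p) ≤ En x N p ∧ StarAt el x p := by
  obtain ⟨a, b⟩ := p
  exact Ind_main hL _ a b hp.1 hp.2 (Ind_nz h0 hp.1 hp.2) le_rfl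

/-- the apex inequality -/
theorem apex (hL : Loc V κ el x N) :
    Phi V κ (disp x (1, 0)) (disp x (1, 1)) (disp x (0, 1)) ≤ En x N (1, 0) + En x N (0, 1) - En x N (1, 1) := by
  have hN := hL.pos
  have g : ∀ a b : ℤ, 0 ≤ a → 0 ≤ b → 0 < a + b → V (disp x (a, b)) ≤ En x N (a, b) ∧ StarAt el x (a, b) :=
    fun a b ha hb h0 => Ind_main hL _ a b ha hb h0 le_rfl
  have h := Ind_Phi hL (a := 0) (b := 0) le_rfl le_rfl (by omega) (by omega)
    (g _ _ (by norm_num) (by norm_num) (by norm_num)).1 (g _ _ (by norm_num) (by norm_num) (by norm_num)).1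
    (g _ _ (by norm_num) (by norm_num) (by norm_num)).1
    (fun c e h1 h2 h3 => (g c e h1 h2 (by omega)).2)
  simpa using h

end Pool.Agent.H63.P6
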