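import Pool.Agent.H63.P6.Defs

/-!
# T5, part A: the local induction

`Loc_good`: at every site `p ≠ 0` of the quadrant, `V (disp x p) ≤ En x N p` and the star of `p` is a `Star`.
`Loc_apex`: `Φ ≤ E(s1) + E(s3) - E(s2)` at the apex.
-/

set_option autoImplicit false

open Pool.Agent.H20.AL Finset

noncomputable section

namespace Pool.Agent.H63.P6

theorem Loc_dt_le (u d : ℂ) (hd : ‖d‖ = 1) : dt u d ≤ ‖u‖ := by
  have h := lag u d
  have h1 : dt u d ^ 2 ≤ ‖u‖ ^ 2 := by
    have : 0 ≤ cr u d ^ 2 := sq_nonneg _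
    rw [hd] at h
    nlinarith
  exact (abs_le_of_sq_le_sq' h1 (norm_nonneg _)).2

theorem Loc_sq3 : (√3 : ℝ) ^ 2 = 3 := Real.sq_sqrt (by norm_num)

theorem Loc_norm_d1 : ‖d1‖ = 1 := by
  have h : ‖d1‖ ^ 2 = 1 := by rw [nsq]; simp only [d1]; nlinarith [Loc_sq3]
  nlinarith [norm_nonneg d1]

theorem Loc_norm_d2 : ‖d2‖ = 1 := by
  have h : ‖d2‖ ^ 2 = 1 := by rw [nsq]; simp only [d2]; norm_num
  nlinarith [norm_nonneg d2]

theorem Loc_norm_d3 : ‖d3‖ = 1 := by
  have h : ‖d3‖ ^ 2 = 1 := by rw [nsq]; simp only [d3]; nlinarith [Loc_sq3]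
  nlinarith [norm_nonneg d3]

theorem Loc_d2 : d1 + d3 = d2 := by
  apply Complex.ext <;> simp [d1, d2, d3]
  norm_num

/-- a row: `y`, `z` are the positions on the two boundary rows of the strip, in direction `d`, exact from `M` on -/
theorem Loc_row {κ : ℝ} (hκ : 0 ≤ κ) {d : ℂ} (hd : ‖d‖ = 1) (M : ℕ) (hM : 0 < M) (y z : ℕ → ℂ) (F : ℕ → ℝ) (l : ℝ)
    (b v1 v2 c : ℂ) (hy0 : y 0 = b + v1) (hyM : y M = b + M * d) (hz0 : z 0 = c + v2) (hzM : z M = c + M * d)
    (hy : ∀ k < M, 1 ≤ ‖y (k + 1) - y k‖) (hz : ∀ k < M, 1 ≤ ‖z (k + 1) - z k‖)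
    (hF : ∀ k < M, κ * ((‖y (k + 1) - y k‖ - 1) + (‖z (k + 1) - z k‖ - 1)) ≤ F k)
    (hF0 : κ * ((‖y 1 - y 0‖ - 1) + (‖z 1 - z 0‖ - 1) + (l - 1)) ≤ F 0) :
    sig κ d v1 v2 l ≤ ∑ k ∈ range M, F k := by
  have key : ∀ (y : ℕ → ℂ) (b v : ℂ), y 0 = b + v → y M = b + M * d → (∀ k < M, 1 ≤ ‖y (k + 1) - y k‖) →
      max (-(dt v d)) 0 ≤ ∑ k ∈ range M, (‖y (k + 1) - y k‖ - 1) := by
    intro y b v h0 hM' h1
    apply max_le
    · have h2 : ∑ k ∈ range M, (dt (y (k + 1) - y k) d - 1) ≤ ∑ k ∈ range M, (‖y (k + 1) - y k‖ - 1) := by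
        refine sum_le_sum fun k _ => ?_
        have := Loc_dt_le (y (k + 1) - y k) d hd
        linarith
      refine le_trans (le_of_eq ?_) h2
      have h3 : ∀ n : ℕ, ∑ k ∈ range n, (dt (y (k + 1) - y k) d - 1) = dt (y n - y 0) d - n := by
        intro n
        induction n with
        | zero => simp [dt]
        | succ n ih =>
          rw [sum_range_succ, ih]
          simp only [dt, Complex.sub_re, Complex.sub_im]
          push_cast
          ring
      rw [h3, h0, hM']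
      have h4 : dt d d = 1 := by rw [dt_self, hd]; norm_num
      simp only [dt, Complex.sub_re, Complex.sub_im, Complex.add_re, Complex.add_im, Complex.mul_re, Complex.mul_im,
        Complex.natCast_re, Complex.natCast_im] at h4 ⊢
      linear_combination (-(M : ℝ)) * h4
    · exact sum_nonneg fun k hk => by
        have := h1 k (mem_range.1 hk)
        linarith
  obtain ⟨m, rfl⟩ : ∃ m, M = m + 1 := ⟨M - 1, by omega⟩
  have hy' := key y b v1 hy0 hyM hy
  have hz' := key z c v2 hz0 hzM hz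
  have hsum : κ * (∑ k ∈ range (m + 1), (‖y (k + 1) - y k‖ - 1) + ∑ k ∈ range (m + 1), (‖z (k + 1) - z k‖ - 1) + (l - 1)) ≤
      ∑ k ∈ range (m + 1), F k := by
    rw [sum_range_succ' F, sum_range_succ' (fun k => ‖y (k + 1) - y k‖ - 1),
      sum_range_succ' (fun k => ‖z (k + 1) - z k‖ - 1)]
    have h1 : κ * (∑ k ∈ range m, (‖y (k + 1 + 1) - y (k + 1)‖ - 1) + ∑ k ∈ range m, (‖z (k + 1 + 1) - z (k + 1)‖ - 1)) ≤
        ∑ k ∈ range m, F (k + 1) := by
      rw [← sum_add_distrib, mul_sum]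
      exact sum_le_sum fun k hk => hF (k + 1) (by have := mem_range.1 hk; omega)
    simp only [zero_add]
    linarith
  refine le_trans ?_ hsum
  unfold sig
  apply mul_le_mul_of_nonneg_left _ hκ
  linarith

theorem Loc_st_add (p q : ℤ × ℤ) : st (p + q) = st p + st q := by
  simp only [st, Prod.fst_add, Prod.snd_add]
  push_cast
  ring

theorem Loc_st10 : st (1, 0) = d1 := by simp [st]
theorem Loc_st01 : st (0, 1) = d3 := by simp [st]
theorem Loc_st11 : st (1, 1) = d2 := by simp [st, Loc_d2]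

theorem Loc_x (x : ℤ × ℤ → ℂ) (p : ℤ × ℤ) : x p = st p + disp x p := by unfold disp; ring

/-- energy identity -/
theorem Loc_En (x : ℤ × ℤ → ℂ) (N : ℤ) (a b : ℤ) (ha : a < N) (hb : b < N) :
    En x N (a, b) = fan x (a, b) + En x N (a + 1, b) + En x N (a, b + 1) - En x N (a + 1, b + 1) := by
  have h1 : ∀ a b : ℤ, a < N → En x N (a, b) = ∑ c ∈ Ico b N, fan x (a, c) + En x N (a + 1, b) := by
    intro a b ha
    unfold En
    rw [← sum_erase_add _ _ (show a ∈ Ico a N by rw [mem_Ico]; omega), add_comm]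
    congr 1
    apply sum_congr _ fun _ _ => rfl
    ext c
    simp only [mem_erase, mem_Ico]
    omega
  rw [h1 a b ha, h1 a (b + 1) ha]
  have h2 : ∑ c ∈ Ico b N, fan x (a, c) = fan x (a, b) + ∑ c ∈ Ico (b + 1) N, fan x (a, c) := by
    rw [← sum_erase_add _ _ (show b ∈ Ico b N by rw [mem_Ico]; omega), add_comm]
    congr 1
    apply sum_congr _ fun _ _ => rfl
    ext c
    simp only [mem_erase, mem_Ico]
    omega
  rw [h2]
  ring

/-- the strip in direction `d1` -/
theorem Loc_En_row (x : ℤ × ℤ → ℂ) (N : ℤ) (a b : ℤ) (hb : b < N) :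
    En x N (a, b) - En x N (a, b + 1) = ∑ c ∈ Ico a N, fan x (c, b) := by
  unfold En
  rw [← sum_sub_distrib]
  apply sum_congr rfl
  intro c _
  simp only
  rw [← sum_erase_add _ _ (show b ∈ Ico b N by rw [mem_Ico]; omega)]
  have : (Ico b N).erase b = Ico (b + 1) N := by
    ext c
    simp only [mem_erase, mem_Ico]
    omega
  rw [this]
  ring

/-- the strip in direction `d3` -/
theorem Loc_En_col (x : ℤ × ℤ → ℂ) (N : ℤ) (a b : ℤ) (ha : a < N) :
    En x N (a, b) - En x N (a + 1, b) = ∑ c ∈ Ico b N, fan x (a, c) := by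
  unfold En
  rw [← sum_erase_add _ _ (show a ∈ Ico a N by rw [mem_Ico]; omega)]
  have : (Ico a N).erase a = Ico (a + 1) N := by
    ext c
    simp only [mem_erase, mem_Ico]
    omega
  simp only
  rw [this]
  ring

theorem Loc_Ico (a N : ℤ) (ha : a ≤ N) (F : ℤ → ℝ) :
    ∑ c ∈ Ico a N, F c = ∑ k ∈ range (N - a).toNat, F (a + k) := by
  have : Ico a N = (range (N - a).toNat).map ⟨fun k : ℕ => a + k, fun i j h => by simpa using h⟩ := by
    ext c
    simp only [mem_Ico, mem_map, mem_range, Function.Embedding.coeFn_mk]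
    constructor
    · rintro ⟨h1, h2⟩
      exact ⟨(c - a).toNat, by omega, by omega⟩
    · rintro ⟨k, hk, rfl⟩
      omega
  rw [this, sum_map]
  rfl

end Pool.Agent.H63.P6
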