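import Pool.Agent.H63.P6.Glob
import Pool.Agent.H20.AL.HXA
import Pool.Agent.H16.T3.EQ

/-!
# T5, part B: wedge coordinates
-/

set_option autoImplicit false

open Pool.Agent.H20.AL Pool.Agent.H16.T3 Finset

noncomputable section

namespace Pool.Agent.H63.P6

theorem om_eq : om = (1 / 2 : ℂ) + ((Real.sqrt 3 / 2 : ℝ) : ℂ) * Complex.I := by
  apply Complex.ext <;> simp [om]

theorem mem_lam (z : ℂ) : z ∈ Lam ↔ ∃ m n : ℤ, z = m + n * om := by
  unfold Lam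
  rw [om_eq]
  rfl

theorem om4 : om ^ 4 = -om := by
  have h : om ^ 4 = om ^ 3 * om := by ring
  rw [h, om_cube]; ring

theorem ws0 (p : ℤ × ℤ) : ws 0 p = ((p.1 - p.2 : ℤ) : ℂ) + (p.2 : ℂ) * om := by
  have h : ws 0 p = (p.1 : ℂ) * om ^ 0 + (p.2 : ℂ) * om ^ 2 := rfl
  rw [h, om_sq]; push_cast; ring

theorem ws1 (p : ℤ × ℤ) : ws 1 p = ((-p.1 : ℤ) : ℂ) + ((p.1 - p.2 : ℤ) : ℂ) * om := by
  have h : ws 1 p = (p.1 : ℂ) * om ^ 2 + (p.2 : ℂ) * om ^ 4 := rfl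
  rw [h, om_sq, om4]; push_cast; ring

theorem ws2 (p : ℤ × ℤ) : ws 2 p = (p.2 : ℂ) + ((-p.1 : ℤ) : ℂ) * om := by
  have h : ws 2 p = (p.1 : ℂ) * om ^ 4 + (p.2 : ℂ) * om ^ 6 := rfl
  rw [h, om4, om_six]; push_cast; ring

theorem ws_mem (k : Fin 3) (p : ℤ × ℤ) : ws k p ∈ Lam := by
  rw [mem_lam]
  fin_cases k
  · exact ⟨_, _, ws0 p⟩
  · exact ⟨_, _, ws1 p⟩
  · exact ⟨_, _, ws2 p⟩

theorem ws_surj (k : Fin 3) {z : ℂ} (hz : z ∈ Lam) : ∃ p, z = ws k p := by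
  obtain ⟨m, n, rfl⟩ := (mem_lam z).1 hz
  fin_cases k
  · refine ⟨(m + n, n), ?_⟩
    change _ = ws 0 _
    rw [ws0]; push_cast; ring
  · refine ⟨(-m, -m - n), ?_⟩
    change _ = ws 1 _
    rw [ws1]; push_cast; ring
  · refine ⟨(-n, m), ?_⟩
    change _ = ws 2 _
    rw [ws2]; push_cast; ring

theorem ws_add (k : Fin 3) (p q : ℤ × ℤ) : ws k (p + q) = ws k p + ws k q := by
  unfold ws
  simp only [Prod.fst_add, Prod.snd_add]
  push_cast
  ring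

theorem lam_add {y z : ℂ} (hy : y ∈ Lam) (hz : z ∈ Lam) : y + z ∈ Lam := by
  obtain ⟨p, rfl⟩ := ws_surj 0 hy
  obtain ⟨q, rfl⟩ := ws_surj 0 hz
  rw [← ws_add]
  exact ws_mem _ _

theorem rho_pow (k : Fin 3) : rho k * om ^ (2 * (k : ℕ)) = d1 := by
  unfold rho
  have h : (k : ℕ) < 3 := k.2
  rw [mul_assoc, ← pow_add, show 6 - 2 * (k : ℕ) + 2 * (k : ℕ) = 6 by omega, om_six, mul_one]

theorem d3_eq : d1 * om ^ 2 = d3 := by
  rw [om_sq]
  apply Complex.ext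
  · rw [Complex.mul_re, Complex.sub_re, Complex.sub_im, om_re, om_im, Complex.one_re, Complex.one_im]
    simp only [d1, d3]
    ring
  · rw [Complex.mul_im, Complex.sub_re, Complex.sub_im, om_re, om_im, Complex.one_re, Complex.one_im]
    simp only [d1, d3]
    nlinarith [sq3]

theorem rho_ws (k : Fin 3) (p : ℤ × ℤ) : rho k * ws k p = st p := by
  unfold ws st
  have h := rho_pow k
  rw [mul_add, ← d3_eq]
  calc rho k * ((p.1 : ℂ) * om ^ (2 * (k : ℕ))) + rho k * ((p.2 : ℂ) * om ^ (2 * (k : ℕ) + 2))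
      = (p.1 : ℂ) * (rho k * om ^ (2 * (k : ℕ))) + (p.2 : ℂ) * ((rho k * om ^ (2 * (k : ℕ))) * om ^ 2) := by ring
    _ = _ := by rw [h]

theorem norm_rho (k : Fin 3) : ‖rho k‖ = 1 := by
  unfold rho
  rw [norm_mul, norm_pow, norm_om, Loc_norm_d1]
  norm_num

theorem norm_rho_mul (k : Fin 3) (z : ℂ) : ‖rho k * z‖ = ‖z‖ := by
  rw [norm_mul, norm_rho, one_mul]

/-- far sites have large coordinates -/
theorem ws_norm (k : Fin 3) (p : ℤ × ℤ) : |(p.1 : ℝ)| ≤ 2 * ‖ws k p‖ ∧ |(p.2 : ℝ)| ≤ 2 * ‖ws k p‖ := by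
  have h1 : ‖ws k p‖ = ‖st p‖ := by rw [← rho_ws k, norm_rho_mul]
  have h2 : ‖st p‖ ^ 2 = (p.1 : ℝ) ^ 2 + (p.2 : ℝ) ^ 2 - p.1 * p.2 := by
    rw [nsq]
    simp only [st, d1, d3, Complex.add_re, Complex.add_im, Complex.mul_re, Complex.mul_im, Complex.intCast_re,
      Complex.intCast_im]
    nlinarith [sq3]
  rw [h1]
  have h0 := norm_nonneg (st p)
  constructor
  · apply abs_le_of_sq_le_sq _ (by positivity)
    nlinarith [sq_nonneg ((p.1 : ℝ) - 2 * p.2)]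
  · apply abs_le_of_sq_le_sq _ (by positivity)
    nlinarith [sq_nonneg ((p.2 : ℝ) - 2 * p.1)]

/-! ### matched sites -/

theorem pos_spec {X : Set ℂ} {t : ℂ} (h : Mat X t) : pos X t ∈ X ∧ dist (pos X t) t < 1 / 2 := by
  unfold pos
  rw [dif_pos h]
  exact h.choose_spec

theorem pos_eq {X : Set ℂ} (hX : Sep X) {t x : ℂ} (hx : x ∈ X) (h : dist x t < 1 / 2) : pos X t = x := by
  have hM : Mat X t := ⟨x, hx, h⟩
  obtain ⟨h1, h2⟩ := pos_spec hM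
  by_contra hne
  have h3 := hX _ h1 x hx hne
  have h4 := dist_triangle_right (pos X t) x t
  linarith

theorem pos_self {X : Set ℂ} (hX : Sep X) {t : ℂ} (ht : t ∈ X) : pos X t = t :=
  pos_eq hX ht (by rw [dist_self]; norm_num)

theorem pos_inj {X : Set ℂ} {t t' : ℂ} (ht : t ∈ Lam) (ht' : t' ∈ Lam) (h : Mat X t) (h' : Mat X t')
    (he : pos X t = pos X t') : t = t' := by
  by_contra hne
  have h1 := lam_sep t ht t' ht' hne
  have h2 := (pos_spec h).2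
  have h3 := (pos_spec h').2
  rw [← he] at h3
  have h4 := dist_triangle_left t t' (pos X t)
  linarith

end Pool.Agent.H63.P6
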